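import Pool.Agent.EGZ20.Defs

/-!
# Upper bound for the number of chains with a given sum
-/

set_option linter.unusedSectionVars false

namespace Pool.Agent.EGZ20

open Finset

variable {G : Type*} [AddCommGroup G] [DecidableEq G]

/-- PROOF. Let `K j = j! D^j`. Suppose `|B| > K k`. For `T ⊆ Fin k`, `y0 ∈ B` let
`B(T,y0) = {y ∈ B | y = y0 on T}`; choose `T` of maximal cardinality such that for some `y0 ∈ B`
`|B(T,y0)| > K (k - |T|)`. `T ≠ univ` since `|B(univ,y0)| = 1 = K 0`. Let `J = Tᶜ`, `j = |J| ≥ 1`,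
`u = min J`. By maximality `|{y ∈ B(T,y0) | y i = a}| ≤ K (j-1)` for `i ∈ J` and all `a`. Let `U` be the
set from `Rig X D g (y0 u) T_u`. At most `j * D * K (j-1) = K j` of the `y ∈ B(T,y0)` have
`y(J) ∩ U ≠ ∅`, so some `y ∈ B(T,y0)` has `y(J) ∩ U = ∅`. Put `Z = y(J)` (`j` distinct elements of `X`
outside `U`). `∑ Z = ∑_J y = ∑_J y0 = y0 u + ∑_{i ∈ J, i > u} y0 i`, where `y0 i ∈ T_u`; with
`q = j - 1 ≤ k - 1 ≤ g` this contradicts `Rig`. -/
theorem chain_count {X : Finset G} (D g k : ℕ) (hk : k ≤ g + 1) (w : G)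
    (B : Finset (Fin k → G)) (hmem : ∀ y ∈ B, ∀ i, y i ∈ X)
    (hinj : ∀ y ∈ B, Function.Injective y) (hsum : ∀ y ∈ B, ∑ i, y i = w)
    (hrig : ∀ y ∈ B, ∀ i, ∃ T : Finset G, (∀ j, i < j → y j ∈ T) ∧ Rig X D g (y i) T) :
    B.card ≤ k.factorial * D ^ k := by
  classical
  by_contra hlt
  push Not at hlt
  have hmax := Finset.exists_max_image
    ((univ : Finset (Finset (Fin k))).filter (fun T => ∃ y0 ∈ B,
      (k - T.card).factorial * D ^ (k - T.card) <
        (B.filter (fun y => ∀ i ∈ T, y i = y0 i)).card)) Finset.card (by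
      have hB : B.Nonempty := Finset.card_pos.1 (by omega)
      obtain ⟨y0, hy0⟩ := hB
      refine ⟨∅, Finset.mem_filter.2 ⟨Finset.mem_univ _, y0, hy0, ?_⟩⟩
      have : B.filter (fun y => ∀ i ∈ (∅ : Finset (Fin k)), y i = y0 i) = B := by
        apply Finset.filter_true_of_mem
        intro y _ i hi
        exact absurd hi (Finset.notMem_empty i)
      rw [this, Finset.card_empty, Nat.sub_zero]
      exact hlt)
  obtain ⟨T, hT, hTmax⟩ := hmax
  obtain ⟨-, y0, hy0, hcard⟩ := Finset.mem_filter.1 hT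
  have hmax' : ∀ T' : Finset (Fin k), T.card < T'.card → ∀ y1 ∈ B,
      (B.filter (fun y => ∀ i ∈ T', y i = y1 i)).card ≤
        (k - T'.card).factorial * D ^ (k - T'.card) := by
    intro T' h1 y1 hy1
    by_contra h2
    push Not at h2
    have := hTmax T' (Finset.mem_filter.2 ⟨Finset.mem_univ _, y1, hy1, h2⟩)
    omega
  have hTk : T.card ≤ k := by
    have := Finset.card_le_univ T
    rwa [Fintype.card_fin] at this
  -- the complement
  have hJc : Tᶜ.card = k - T.card := by rw [Finset.card_compl, Fintype.card_fin]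
  have hJne : Tᶜ.Nonempty := by
    rw [← Finset.card_pos, hJc]
    by_contra h0
    have hTk' : T.card = k := by omega
    have hTu : T = univ := by
      apply Finset.eq_univ_of_card
      rw [hTk', Fintype.card_fin]
    have h1 : B.filter (fun y => ∀ i ∈ T, y i = y0 i) ⊆ {y0} := by
      intro y hy
      rw [Finset.mem_singleton]
      funext i
      exact (Finset.mem_filter.1 hy).2 i (by rw [hTu]; exact Finset.mem_univ i)
    have h2 := Finset.card_le_card h1
    rw [Finset.card_singleton] at h2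
    rw [hTk', Nat.sub_self, Nat.factorial_zero, pow_zero] at hcard
    omega
  obtain ⟨j, hj⟩ : ∃ j, k - T.card = j + 1 := by
    refine ⟨k - T.card - 1, ?_⟩
    have := Finset.card_pos.2 hJne
    omega
  set u := Tᶜ.min' hJne with hu
  have huJ : u ∈ Tᶜ := Finset.min'_mem _ _
  obtain ⟨Tu, hTu, U, hUc, hU⟩ := hrig y0 hy0 u
  -- few tuples meet `U` on the complement
  have hfew : ((B.filter (fun y => ∀ i ∈ T, y i = y0 i)).filter
      (fun y => ∃ i ∈ Tᶜ, y i ∈ U)).card ≤ (k - T.card).factorial * D ^ (k - T.card) := by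
    have hsub : (B.filter (fun y => ∀ i ∈ T, y i = y0 i)).filter (fun y => ∃ i ∈ Tᶜ, y i ∈ U) ⊆
        (Tᶜ ×ˢ U).biUnion (fun q =>
          (B.filter (fun y => ∀ i ∈ T, y i = y0 i)).filter (fun y => y q.1 = q.2)) := by
      intro y hy
      obtain ⟨h1, i, hi, hiU⟩ := Finset.mem_filter.1 hy
      rw [Finset.mem_biUnion]
      exact ⟨(i, y i), Finset.mem_product.2 ⟨hi, hiU⟩, Finset.mem_filter.2 ⟨h1, rfl⟩⟩
    refine (Finset.card_le_card hsub).trans ?_
    refine Finset.card_biUnion_le.trans ?_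
    have hb : ∀ q ∈ Tᶜ ×ˢ U,
        ((B.filter (fun y => ∀ i ∈ T, y i = y0 i)).filter (fun y => y q.1 = q.2)).card ≤
          j.factorial * D ^ j := by
      rintro ⟨i, a⟩ hq
      obtain ⟨hi, -⟩ := Finset.mem_product.1 hq
      simp only at hi ⊢
      rcases Finset.eq_empty_or_nonempty
        ((B.filter (fun y => ∀ i ∈ T, y i = y0 i)).filter (fun y => y i = a)) with he | ⟨y1, hy1⟩
      · rw [he, Finset.card_empty]
        exact Nat.zero_le _
      · obtain ⟨hy1', hy1a⟩ := Finset.mem_filter.1 hy1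
        obtain ⟨hy1B, hy1T⟩ := Finset.mem_filter.1 hy1'
        have hiT : i ∉ T := Finset.mem_compl.1 hi
        have hc : (insert i T).card = T.card + 1 := Finset.card_insert_of_notMem hiT
        have h3 := hmax' (insert i T) (by omega) y1 hy1B
        have h4 : k - (insert i T).card = j := by omega
        rw [h4] at h3
        refine le_trans (Finset.card_le_card ?_) h3
        intro y hy
        obtain ⟨hy2, hya⟩ := Finset.mem_filter.1 hy
        obtain ⟨hyB, hyT⟩ := Finset.mem_filter.1 hy2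
        refine Finset.mem_filter.2 ⟨hyB, fun i' hi' => ?_⟩
        rcases Finset.mem_insert.1 hi' with rfl | hi''
        · rw [hya, hy1a]
        · rw [hyT i' hi'', hy1T i' hi'']
    refine (Finset.sum_le_sum hb).trans ?_
    rw [Finset.sum_const, Finset.card_product, hJc, hj, smul_eq_mul, Nat.factorial_succ, pow_succ]
    calc (j + 1) * U.card * (j.factorial * D ^ j)
        ≤ (j + 1) * D * (j.factorial * D ^ j) :=
          Nat.mul_le_mul_right _ (Nat.mul_le_mul_left _ hUc)
      _ = (j + 1) * j.factorial * (D ^ j * D) := by ring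
  have hex : ∃ y : Fin k → G, y ∈ B.filter (fun y : Fin k → G => ∀ i ∈ T, y i = y0 i) ∧
      ∀ i ∈ Tᶜ, y i ∉ U := by
    by_contra hno
    push Not at hno
    have h1 : (B.filter (fun y => ∀ i ∈ T, y i = y0 i)).filter (fun y => ∃ i ∈ Tᶜ, y i ∈ U) =
        B.filter (fun y => ∀ i ∈ T, y i = y0 i) := by
      apply Finset.filter_true_of_mem
      intro y hy
      exact hno y hy
    rw [h1] at hfew
    omega
  obtain ⟨y, hy, hyU⟩ := hex
  obtain ⟨hyB, hyT⟩ := Finset.mem_filter.1 hy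
  -- the set `Z`
  have hinjy := hinj y hyB
  have hZc : (Tᶜ.image y).card = j + 1 := by
    rw [Finset.card_image_of_injective _ hinjy, hJc, hj]
  have hZs : ∑ x ∈ Tᶜ.image y, x = ∑ i ∈ Tᶜ, y i :=
    Finset.sum_image (fun a _ b _ h => hinjy h)
  have hs1 : ∑ i ∈ T, y i + ∑ i ∈ Tᶜ, y i = w := by
    rw [Finset.sum_add_sum_compl, hsum y hyB]
  have hs2 : ∑ i ∈ T, y0 i + ∑ i ∈ Tᶜ, y0 i = w := by
    rw [Finset.sum_add_sum_compl, hsum y0 hy0]
  have hs3 : ∑ i ∈ T, y i = ∑ i ∈ T, y0 i := Finset.sum_congr rfl hyT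
  have hs4 : ∑ i ∈ Tᶜ, y i = ∑ i ∈ Tᶜ, y0 i := by
    rw [hs3] at hs1
    exact add_left_cancel (hs1.trans hs2.symm)
  have hec : (Tᶜ.erase u).card = j := by
    rw [Finset.card_erase_of_mem huJ, hJc, hj]; rfl
  let e := Finset.equivFinOfCardEq hec
  have hs5 : ∑ i : Fin j, y0 (e.symm i) = ∑ i ∈ Tᶜ.erase u, y0 i := by
    rw [← Finset.sum_coe_sort (Tᶜ.erase u) y0]
    exact Equiv.sum_comp e.symm (fun i => y0 i)
  refine hU j (by omega) (fun i => y0 (e.symm i)) (fun i => ?_) (Tᶜ.image y) ?_ ?_ hZc ?_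
  · apply hTu
    have h1 := (e.symm i).2
    obtain ⟨h2, h3⟩ := Finset.mem_erase.1 h1
    exact lt_of_le_of_ne (Finset.min'_le _ _ h3) (Ne.symm h2)
  · intro x hx
    obtain ⟨i, -, rfl⟩ := Finset.mem_image.1 hx
    exact hmem y hyB i
  · rw [Finset.disjoint_left]
    intro x hx hxU
    obtain ⟨i, hi, rfl⟩ := Finset.mem_image.1 hx
    exact hyU i hi hxU
  · rw [hZs, hs4, hs5]
    exact (Finset.add_sum_erase _ _ huJ).symm

end Pool.Agent.EGZ20
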