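import Pool.Agent.EGZ20.Defs

/-!
# Lower bound for the number of chains
-/

set_option linter.unusedSectionVars false

namespace Pool.Agent.EGZ20

open Finset

variable {G : Type*} [AddCommGroup G] [DecidableEq G]

/-- PROOF. Induction on `k`. `k = 0`: `B` = the one function. `k → k+1`: let `Gd` be the set of
`x ∈ S` for which there is `T ⊆ S` with `x ∉ T`, `S.card ≤ c * T.card`, `Rig X D g x T` (choose `T x`).
By `hA` applied to `S' = S \ Gd` we get `S.card > 2 * (S \ Gd).card`, so `S.card ≤ 2 * Gd.card`. For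
`x ∈ Gd`: `s0 * c^k ≤ (T x).card`, let `B x` be the family from the induction hypothesis for `T x` and
`B = {Fin.cons x y | x ∈ Gd, y ∈ B x}` (`|B| = ∑_x |B x|`). `Fin.cons x y` is injective since
`x ∉ T x`; for `i = 0` use `T x`. Count:
`|S|^(k+1) ≤ 2 |Gd| |S|^k ≤ 2 ∑_{x ∈ Gd} c^k |T x|^k ≤ 2 c^k 2^k c^(k choose 2) ∑ |B x|`. -/
theorem chain_exists {X : Finset G} (D g c s0 : ℕ) (hc : 1 ≤ c)
    (hA : ∀ S ⊆ X, s0 ≤ S.card → ∀ S' ⊆ S, S.card ≤ 2 * S'.card →
      ∃ x ∈ S', ∃ T ⊆ S, x ∉ T ∧ S.card ≤ c * T.card ∧ Rig X D g x T)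
    (k : ℕ) (S : Finset G) (hSX : S ⊆ X) (hS : s0 * c ^ k ≤ S.card) :
    ∃ B : Finset (Fin k → G), (∀ y ∈ B, (∀ i, y i ∈ S) ∧ Function.Injective y ∧
        ∀ i, ∃ T : Finset G, (∀ j, i < j → y j ∈ T) ∧ Rig X D g (y i) T) ∧
      S.card ^ k ≤ 2 ^ k * c ^ (k.choose 2) * B.card := by
  classical
  induction k generalizing S with
  | zero =>
    refine ⟨{Fin.elim0}, ?_, by simp⟩
    intro y _
    exact ⟨fun i => i.elim0, fun i => i.elim0, fun i => i.elim0⟩
  | succ k ih =>
    have hc0 : 0 < c := hc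
    have hs0 : s0 ≤ S.card := le_trans (Nat.le_mul_of_pos_right _ (pow_pos hc0 _)) hS
    set Gd : Finset G := S.filter
      (fun x => ∃ T ⊆ S, x ∉ T ∧ S.card ≤ c * T.card ∧ Rig X D g x T) with hGd
    have hGS : Gd ⊆ S := filter_subset _ _
    have hcard : S.card ≤ 2 * Gd.card := by
      by_contra hlt
      have h1 : (S \ Gd).card = S.card - Gd.card := card_sdiff_of_subset hGS
      have h2 : Gd.card ≤ S.card := card_le_card hGS
      obtain ⟨x, hx, T, hT, hxT, hST, hR⟩ := hA S hSX hs0 (S \ Gd) sdiff_subset (by omega)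
      rw [mem_sdiff] at hx
      exact hx.2 (mem_filter.2 ⟨hx.1, T, hT, hxT, hST, hR⟩)
    have hex : ∀ x ∈ Gd, ∃ T ⊆ S, x ∉ T ∧ S.card ≤ c * T.card ∧ Rig X D g x T :=
      fun x hx => (mem_filter.1 hx).2
    choose! T hTS hxT hcT hR using hex
    have hB : ∀ x ∈ Gd, ∃ B : Finset (Fin k → G), (∀ y ∈ B, (∀ i, y i ∈ T x) ∧
        Function.Injective y ∧
        ∀ i, ∃ T : Finset G, (∀ j, i < j → y j ∈ T) ∧ Rig X D g (y i) T) ∧
        (T x).card ^ k ≤ 2 ^ k * c ^ (k.choose 2) * B.card := by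
      intro x hx
      refine ih (T x) ((hTS x hx).trans hSX) ?_
      have h1 : c * (s0 * c ^ k) ≤ c * (T x).card := by
        calc c * (s0 * c ^ k) = s0 * c ^ (k + 1) := by ring
          _ ≤ S.card := hS
          _ ≤ c * (T x).card := hcT x hx
      exact Nat.le_of_mul_le_mul_left h1 hc0
    choose! B hB1 hB2 using hB
    refine ⟨Gd.biUnion fun x => (B x).image (fun y : Fin k → G => (Fin.cons x y : Fin (k + 1) → G)), ?_, ?_⟩
    · intro y hy
      rw [mem_biUnion] at hy
      obtain ⟨x, hx, hy⟩ := hy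
      rw [mem_image] at hy
      obtain ⟨y0, hy0, rfl⟩ := hy
      obtain ⟨h1, h2, h3⟩ := hB1 x hx y0 hy0
      refine ⟨?_, ?_, ?_⟩
      · intro i
        refine Fin.cases ?_ (fun i => ?_) i
        · rw [Fin.cons_zero]
          exact hGS hx
        · rw [Fin.cons_succ]
          exact hTS x hx (h1 i)
      · rw [Fin.cons_injective_iff]
        refine ⟨?_, h2⟩
        rintro ⟨i, hi⟩
        exact hxT x hx (hi ▸ h1 i)
      · intro i
        refine Fin.cases ?_ (fun i => ?_) i
        · refine ⟨T x, fun j hj => ?_, ?_⟩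
          · obtain ⟨j', rfl⟩ := Fin.exists_succ_eq.2 hj.ne'
            rw [Fin.cons_succ]
            exact h1 j'
          · rw [Fin.cons_zero]
            exact hR x hx
        · obtain ⟨T', hT', hR'⟩ := h3 i
          refine ⟨T', fun j hj => ?_, ?_⟩
          · obtain ⟨j', rfl⟩ := Fin.exists_succ_eq.2 (lt_of_le_of_lt (Fin.zero_le _) hj).ne'
            rw [Fin.cons_succ]
            exact hT' j' (Fin.succ_lt_succ_iff.1 hj)
          · rw [Fin.cons_succ]
            exact hR'
    · have hdisj : (Gd : Set G).PairwiseDisjoint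
          (fun x => (B x).image (fun y : Fin k → G => (Fin.cons x y : Fin (k + 1) → G))) := by
        intro x _ x' _ hne
        rw [Function.onFun, disjoint_left]
        intro y hy hy'
        rw [mem_image] at hy hy'
        obtain ⟨y0, _, rfl⟩ := hy
        obtain ⟨y1, _, h1⟩ := hy'
        apply hne
        have h2 := congrFun h1 0
        rw [Fin.cons_zero, Fin.cons_zero] at h2
        exact h2.symm
      rw [card_biUnion (fun x hx x' hx' hne => hdisj hx hx' hne)]
      have hci : ∀ x, ((B x).image (fun y : Fin k → G => (Fin.cons x y : Fin (k + 1) → G))).card =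
          (B x).card := by
        intro x
        refine card_image_of_injective _ fun y y' h => ?_
        have h1 : (Fin.cons x y : Fin (k + 1) → G) = Fin.cons x y' := h
        exact (Fin.cons_inj.1 h1).2
      simp only [hci]
      have hch : (k + 1).choose 2 = k + k.choose 2 := by
        rw [Nat.choose_succ_succ' k 1, Nat.choose_one_right]
      calc S.card ^ (k + 1) = S.card * S.card ^ k := by ring
        _ ≤ 2 * Gd.card * S.card ^ k := Nat.mul_le_mul_right _ hcard
        _ = 2 * ∑ _x ∈ Gd, S.card ^ k := by rw [sum_const, smul_eq_mul]; ring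
        _ ≤ 2 * ∑ x ∈ Gd, c ^ k * (2 ^ k * c ^ (k.choose 2) * (B x).card) := by
            refine Nat.mul_le_mul_left _ (sum_le_sum fun x hx => ?_)
            calc S.card ^ k ≤ (c * (T x).card) ^ k := Nat.pow_le_pow_left (hcT x hx) k
              _ = c ^ k * (T x).card ^ k := mul_pow _ _ _
              _ ≤ _ := Nat.mul_le_mul_left _ (hB2 x hx)
        _ = 2 ^ (k + 1) * c ^ ((k + 1).choose 2) * ∑ x ∈ Gd, (B x).card := by
            rw [hch, ← mul_sum, ← mul_sum]
            ring

end Pool.Agent.EGZ20
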