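import Mathlib

/-!
# Zero sums of `p` distinct elements: definitions

`X` is a finite subset of an abelian group `G`. All notions are relative to `X`.
-/

set_option linter.unusedSectionVars false

namespace Pool.Agent.EGZ20

open Finset

variable {G : Type*} [AddCommGroup G] [DecidableEq G]

/-- `w` is a sum of `h` distinct elements of `X`, which can be chosen outside every set of at most
`D` elements. -/
def Flex (X : Finset G) (D h : ℕ) (w : G) : Prop :=
  ∀ U : Finset G, U.card ≤ D →
    ∃ Z : Finset G, Z ⊆ X ∧ Disjoint Z U ∧ Z.card = h ∧ ∑ x ∈ Z, x = w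

/-- The elements `a` of `S` such that `w - a` is a flexible sum of `h - 1` elements of `X`. -/
noncomputable def helpers (X S : Finset G) (D h : ℕ) (w : G) : Finset G :=
  open Classical in S.filter (fun a => Flex X D (h - 1) (w - a))

/-- `w` has at least `N` helpers. -/
def Rich (X S : Finset G) (D N h : ℕ) (w : G) : Prop := N ≤ (helpers X S D h w).card

/-- `x` is rigid with respect to `T`: outside some set of at most `D` elements, no sum of `x` and
at most `g` elements `z i` of `T` is a sum of `q + 1` distinct elements of `X`. -/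
def Rig (X : Finset G) (D g : ℕ) (x : G) (T : Finset G) : Prop :=
  ∃ U : Finset G, U.card ≤ D ∧ ∀ q ≤ g, ∀ z : Fin q → G, (∀ i, z i ∈ T) →
    ∀ Z : Finset G, Z ⊆ X → Disjoint Z U → Z.card = q + 1 → ∑ y ∈ Z, y ≠ x + ∑ i, z i

/-- A solution of `g (z_1 + ... + z_m) + ρ z_0 = 0` in `S` together with a family `P` of pairwise
disjoint nonempty sets of at most `k` indices whose sums are rich. -/
structure Packed (X S0 : Finset G) (D N k g ρ m : ℕ) (S : Finset G) (z : Fin m → G) (z0 : G)
    (P : Finset (Finset (Fin m))) : Prop where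
  mem : ∀ i, z i ∈ S
  mem0 : z0 ∈ S
  sum : g • ∑ i, z i + ρ • z0 = 0
  ne : ∀ J ∈ P, J.Nonempty
  card : ∀ J ∈ P, J.card ≤ k
  disj : ∀ J ∈ P, ∀ J' ∈ P, J ≠ J' → Disjoint J J'
  rich : ∀ J ∈ P, Rich X S0 D N J.card (∑ i ∈ J, z i)

/-- Constants of the counting lemma for tuples without rich subsums. -/
def KR (D : ℕ) : ℕ → ℕ
  | 0 => 1
  | 1 => 1
  | (j + 2) => KR D (j + 1) + (j + 1) * D * KR D j

/-- The number of tuples needed in the mixing lemma (`w` slots). -/
def mixNum (w k Q n : ℕ) : ℕ :=
  1 + k * (w * 2 ^ (w ^ 2) * ((w * (4 * (Q + 1)) ^ n) ^ 2 + 1))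

lemma Flex.mono {X : Finset G} {D D' h : ℕ} {w : G} (h1 : Flex X D h w) (h2 : D' ≤ D) :
    Flex X D' h w := fun U hU => h1 U (hU.trans h2)

lemma helpers_subset (X S : Finset G) (D h : ℕ) (w : G) : helpers X S D h w ⊆ S := by
  classical
  unfold helpers
  exact filter_subset _ _

lemma mem_helpers {X S : Finset G} {D h : ℕ} {w a : G} :
    a ∈ helpers X S D h w ↔ a ∈ S ∧ Flex X D (h - 1) (w - a) := by
  classical
  unfold helpers
  rw [mem_filter]

end Pool.Agent.EGZ20
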