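import Mathlib

/-!
# Greedy extraction of pairwise disjoint configurations
-/

namespace Pool.Agent.EGZ20

open Finset

/-- PROOF. Induction on `t` (apply `hex` to `S` minus the union of the images already found, which has
at least `N0` elements). -/
theorem extract {α β : Type*} [DecidableEq β] (im : α → Finset β) (Good : α → Prop) (b N0 : ℕ)
    (S : Finset β) (hex : ∀ S' ⊆ S, N0 ≤ S'.card → ∃ a, Good a ∧ im a ⊆ S')
    (hb : ∀ a, (im a).card ≤ b) (t : ℕ) (ht : N0 + b * t ≤ S.card) :
    ∃ f : Fin t → α, (∀ i, Good (f i) ∧ im (f i) ⊆ S) ∧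
      ∀ i j, i ≠ j → Disjoint (im (f i)) (im (f j)) := by
  induction t with
  | zero => exact ⟨fun i => i.elim0, fun i => i.elim0, fun i => i.elim0⟩
  | succ t ih =>
    have hle : b * t ≤ b * (t + 1) := Nat.mul_le_mul_left b (Nat.le_succ t)
    obtain ⟨f, hf, hd⟩ := ih (by omega)
    have hU : (univ.biUnion fun i : Fin t => im (f i)).card ≤ b * t := by
      refine card_biUnion_le.trans ?_
      refine (sum_le_sum fun i _ => hb (f i)).trans ?_
      rw [sum_const, card_univ, Fintype.card_fin, smul_eq_mul, mul_comm]
    have hS : N0 ≤ (S \ univ.biUnion fun i : Fin t => im (f i)).card := by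
      have := le_card_sdiff (univ.biUnion fun i : Fin t => im (f i)) S
      omega
    obtain ⟨a, ha, has⟩ := hex _ sdiff_subset hS
    have hdis : ∀ i, Disjoint (im a) (im (f i)) := by
      intro i
      rw [disjoint_left]
      intro x hx hxi
      exact (mem_sdiff.1 (has hx)).2 (mem_biUnion.2 ⟨i, mem_univ i, hxi⟩)
    refine ⟨Fin.cons a f, ?_, ?_⟩
    · intro i
      refine Fin.cases ?_ (fun i => ?_) i
      · rw [Fin.cons_zero]
        exact ⟨ha, has.trans sdiff_subset⟩
      · rw [Fin.cons_succ]
        exact hf i
    · intro i j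
      refine Fin.cases ?_ (fun i => ?_) i
      · refine Fin.cases ?_ (fun j => ?_) j
        · intro h
          exact absurd rfl h
        · intro _
          rw [Fin.cons_zero, Fin.cons_succ]
          exact hdis j
      · refine Fin.cases ?_ (fun j => ?_) j
        · intro _
          rw [Fin.cons_zero, Fin.cons_succ]
          exact (hdis i).symm
        · intro h
          rw [Fin.cons_succ, Fin.cons_succ]
          exact hd i j fun hij => h (by rw [hij])

end Pool.Agent.EGZ20
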