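import Mathlib

/-!
# Exponent vectors of small total degree
-/

namespace Pool.Agent.EGZ20

open Finset

/-- Exponent vectors of total degree at most `Q n`. -/
def low (p n Q : ℕ) : Finset (Fin n → Fin p) :=
  univ.filter (fun m => ∑ i, (m i : ℕ) ≤ Q * n)

namespace LowCardAux

/-- `t = Q / (Q + 1)` satisfies `t ^ Q ≥ 1 / 4`. -/
lemma quarter_le (Q : ℕ) (hQ : 0 < Q) : (1 / 4 : ℝ) ≤ ((Q : ℝ) / (Q + 1)) ^ Q := by
  have hQ0 : (0 : ℝ) < Q := by exact_mod_cast hQ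
  have h1 : (1 + 1 / (Q : ℝ)) ^ Q ≤ 4 := by
    have h2 : 1 + 1 / (Q : ℝ) ≤ Real.exp (1 / Q) := by
      have := Real.add_one_le_exp (1 / (Q : ℝ))
      linarith
    have h3 : (1 + 1 / (Q : ℝ)) ^ Q ≤ Real.exp (1 / Q) ^ Q :=
      pow_le_pow_left₀ (by positivity) h2 Q
    have h4 : Real.exp (1 / (Q : ℝ)) ^ Q = Real.exp 1 := by
      rw [← Real.exp_nat_mul]
      congr 1
      field_simp
    have h5 := Real.exp_one_lt_d9
    rw [h4] at h3
    linarith
  have h6 : (Q : ℝ) / (Q + 1) = (1 + 1 / (Q : ℝ))⁻¹ := by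
    field_simp
  rw [h6, inv_pow, one_div]
  exact inv_anti₀ (by positivity) h1

/-- geometric sum -/
lemma geom_le (p Q : ℕ) : ∑ j ∈ range p, ((Q : ℝ) / (Q + 1)) ^ j ≤ Q + 1 := by
  have hQ0 : (0 : ℝ) ≤ Q := Nat.cast_nonneg Q
  have h1 : (0 : ℝ) < (Q : ℝ) + 1 := by positivity
  have h2 : (Q : ℝ) / (Q + 1) ≠ 1 := by
    intro h
    rw [div_eq_one_iff_eq h1.ne'] at h
    linarith
  have h3 : (1 : ℝ) - (Q : ℝ) / (Q + 1) = 1 / (Q + 1) := by
    field_simp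
    ring
  have h4 := geom_sum_mul_neg ((Q : ℝ) / (Q + 1)) p
  rw [h3, mul_one_div, div_eq_iff h1.ne'] at h4
  rw [h4]
  have h5 : (0 : ℝ) ≤ ((Q : ℝ) / (Q + 1)) ^ p := by positivity
  nlinarith

end LowCardAux

/-- PROOF. For `Q = 0` the set has at most one element. For `Q ≥ 1` put `t = Q/(Q+1)` (real): every
`m ∈ low` has `t^(Q n) ≤ t^(∑ m i)`, so `card * t^(Q n) ≤ ∑_m t^(∑ m i) = (∑_{j<p} t^j)^n ≤ (Q+1)^n`
(`∑_{j<p} t^j ≤ 1/(1-t) = Q+1`), and `t^(-Q) = (1+1/Q)^Q ≤ e < 4`. (Compare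
`Pool/Agent/Results/MP_fc504f_co/UpperBound.lean`, lemma `low_card_le`.) -/
theorem low_card (p n Q : ℕ) : (low p n Q).card ≤ (4 * (Q + 1)) ^ n := by
  rcases Nat.eq_zero_or_pos Q with rfl | hQ
  · have h1 : (low p n 0).card ≤ 1 := by
      rw [card_le_one]
      intro a ha b hb
      rw [low, mem_filter, zero_mul, Nat.le_zero, sum_eq_zero_iff] at ha hb
      funext i
      apply Fin.ext
      rw [ha.2 i (mem_univ i), hb.2 i (mem_univ i)]
    exact h1.trans (Nat.one_le_pow _ _ (by norm_num))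
  · have hQ0 : (0 : ℝ) < Q := by exact_mod_cast hQ
    set t : ℝ := (Q : ℝ) / (Q + 1) with ht
    have ht0 : 0 < t := by positivity
    have ht1 : t ≤ 1 := by
      rw [ht, div_le_one (by positivity)]
      linarith
    have h1 : ∑ m : Fin n → Fin p, t ^ (∑ i, (m i : ℕ)) = (∑ j ∈ range p, t ^ j) ^ n := by
      rw [← Fin.sum_univ_eq_sum_range (fun j => t ^ j) p]
      have h2 : (∑ j : Fin p, t ^ (j : ℕ)) ^ n = ∏ _i : Fin n, ∑ j : Fin p, t ^ (j : ℕ) := by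
        rw [prod_const, card_univ, Fintype.card_fin]
      rw [h2, prod_univ_sum]
      simp only [Fintype.piFinset_univ]
      apply sum_congr rfl
      intro m _
      rw [prod_pow_eq_pow_sum]
    have h3 : ∀ m ∈ low p n Q, t ^ (Q * n) ≤ t ^ (∑ i, (m i : ℕ)) := by
      intro m hm
      rw [low, mem_filter] at hm
      exact pow_le_pow_of_le_one ht0.le ht1 hm.2
    have h4 : ((low p n Q).card : ℝ) * t ^ (Q * n) ≤ ((Q : ℝ) + 1) ^ n := by
      calc ((low p n Q).card : ℝ) * t ^ (Q * n) = ∑ m ∈ low p n Q, t ^ (Q * n) := by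
            rw [sum_const, nsmul_eq_mul]
        _ ≤ ∑ m ∈ low p n Q, t ^ (∑ i, (m i : ℕ)) := sum_le_sum h3
        _ ≤ ∑ m : Fin n → Fin p, t ^ (∑ i, (m i : ℕ)) :=
            sum_le_sum_of_subset_of_nonneg (subset_univ _)
              (fun m _ _ => pow_nonneg ht0.le _)
        _ = (∑ j ∈ range p, t ^ j) ^ n := h1
        _ ≤ ((Q : ℝ) + 1) ^ n :=
            pow_le_pow_left₀ (sum_nonneg fun j _ => pow_nonneg ht0.le _)
              (LowCardAux.geom_le p Q) n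
    have h5 : (1 / 4 : ℝ) ^ n ≤ t ^ (Q * n) := by
      rw [pow_mul]
      exact pow_le_pow_left₀ (by norm_num) (LowCardAux.quarter_le Q hQ) n
    have h6 : ((low p n Q).card : ℝ) * (1 / 4 : ℝ) ^ n ≤ ((Q : ℝ) + 1) ^ n :=
      (mul_le_mul_of_nonneg_left h5 (Nat.cast_nonneg _)).trans h4
    have h7 : ((low p n Q).card : ℝ) ≤ (4 * ((Q : ℝ) + 1)) ^ n := by
      rw [mul_pow]
      have h8 : (1 / 4 : ℝ) ^ n * 4 ^ n = 1 := by
        rw [← mul_pow]
        norm_num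
      calc ((low p n Q).card : ℝ) = ((low p n Q).card : ℝ) * (1 / 4 : ℝ) ^ n * 4 ^ n := by
            rw [mul_assoc, h8, mul_one]
        _ ≤ ((Q : ℝ) + 1) ^ n * 4 ^ n :=
            mul_le_mul_of_nonneg_right h6 (by positivity)
        _ = 4 ^ n * ((Q : ℝ) + 1) ^ n := mul_comm _ _
    exact_mod_cast h7

end Pool.Agent.EGZ20
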