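import Pool.Agent.EGZ20.Defs

/-!
# Numerical conditions
-/

set_option linter.unusedSectionVars false

namespace Pool.Agent.EGZ20

lemma conds {m k P K M T c σ d : ℕ} (hk : 1 ≤ k) (hM : 1 ≤ M) (hT : 1 ≤ T)
    (hc1 : 16 * T * M ≤ c)
    (hc : 2 * (m ^ k * P * K) * ((4 * T) ^ k * (4 * M) ^ (k - 1)) ≤ c ^ k)
    (hσ : (2 * c + d + 1) * c ≤ σ) :
    d < σ / c ∧ σ ≤ (σ / c) ^ 2 ∧ σ ≤ 2 * c * (σ / c) ∧ 1 ≤ (σ / (2 * T)) / (2 * M) ∧
      2 * ((σ / (2 * T)) / (2 * M)) * M ≤ σ / (2 * T) ∧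
      2 * (m ^ k * P * K * (σ / c) ^ k) ≤
        (σ / (2 * T)) * ((σ / (2 * T)) / (2 * M)) ^ (k - 1) ∧
      2 * T * (σ / (2 * T)) ≤ σ := by
  have hcpos : 0 < c := by
    have : 0 < 16 * T * M := by positivity
    omega
  set N := σ / c with hN
  set L := σ / (2 * T) with hL
  set q := L / (2 * M) with hq
  have hN1 : 2 * c + d + 1 ≤ N := (Nat.le_div_iff_mul_le hcpos).mpr hσ
  have hN2 : N * c ≤ σ := Nat.div_mul_le_self σ c
  have hN3 : σ < (N + 1) * c := by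
    have := Nat.lt_mul_div_succ σ hcpos
    rw [mul_comm]; exact this
  have hL1 : 2 * T * L ≤ σ := Nat.mul_div_le σ (2 * T)
  have hL3 : σ < (L + 1) * (2 * T) := by
    have := Nat.lt_mul_div_succ σ (show 0 < 2 * T by omega)
    rw [mul_comm]; exact this
  have hq1 : 2 * M * q ≤ L := Nat.mul_div_le L (2 * M)
  have hq3 : L < (q + 1) * (2 * M) := by
    have := Nat.lt_mul_div_succ L (show 0 < 2 * M by omega)
    rw [mul_comm]; exact this
  have hσc : c ≤ σ := by nlinarith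
  have hL2 : 8 * M ≤ L := by
    rw [hL, Nat.le_div_iff_mul_le (by omega)]
    calc 8 * M * (2 * T) = 16 * T * M := by ring
      _ ≤ c := hc1
      _ ≤ σ := hσc
  have hqpos : 1 ≤ q := by
    rw [hq, Nat.le_div_iff_mul_le (by omega)]
    omega
  refine ⟨by omega, ?_, ?_, hqpos, ?_, ?_, hL1⟩
  · have h1 : (N + 1) * c ≤ N * N := by
      have : c ≤ N := by omega
      nlinarith
    rw [sq]; omega
  · have h1 : (N + 1) * c ≤ 2 * c * N := by nlinarith
    omega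
  · calc 2 * q * M = 2 * M * q := by ring
      _ ≤ L := hq1
  · have hσL : σ ≤ 4 * T * L := by
      have : (L + 1) * (2 * T) ≤ 4 * T * L := by nlinarith
      omega
    have hLq : L ≤ 4 * M * q := by
      have : (q + 1) * (2 * M) ≤ 4 * M * q := by nlinarith
      omega
    have hσq : σ ≤ 4 * T * (4 * M * q) := hσL.trans (Nat.mul_le_mul_left _ hLq)
    have key : (N * c) ^ k ≤ (4 * T * L) * (4 * T * (4 * M * q)) ^ (k - 1) := by
      calc (N * c) ^ k ≤ σ ^ k := Nat.pow_le_pow_left hN2 k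
        _ = σ * σ ^ (k - 1) := by
            rw [← pow_succ']; congr 1; omega
        _ ≤ _ := Nat.mul_le_mul hσL (Nat.pow_le_pow_left hσq _)
    have hpos : 0 < (4 * T) ^ k * (4 * M) ^ (k - 1) := by positivity
    apply Nat.le_of_mul_le_mul_right _ hpos
    calc 2 * (m ^ k * P * K * N ^ k) * ((4 * T) ^ k * (4 * M) ^ (k - 1))
        = 2 * (m ^ k * P * K) * ((4 * T) ^ k * (4 * M) ^ (k - 1)) * N ^ k := by ring
      _ ≤ c ^ k * N ^ k := Nat.mul_le_mul_right _ hc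
      _ = (N * c) ^ k := by rw [mul_pow, mul_comm]
      _ ≤ (4 * T * L) * (4 * T * (4 * M * q)) ^ (k - 1) := key
      _ = L * q ^ (k - 1) * ((4 * T) ^ k * (4 * M) ^ (k - 1)) := by
          have e : (4 * T) ^ k = (4 * T) * (4 * T) ^ (k - 1) := by
            rw [← pow_succ']; congr 1; omega
          rw [e, mul_pow, mul_pow]; ring

/-- Constant in the bound for `mixNum`. -/
def C2 (w k : ℕ) : ℕ := 1 + k * (w * 2 ^ (w ^ 2) * (w ^ 2 + 1))

lemma mixNum_le (w k Q n : ℕ) : mixNum w k Q n ≤ C2 w k * ((4 * (Q + 1)) ^ 2) ^ n := by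
  unfold mixNum C2
  have e : ((4 * (Q + 1)) ^ 2) ^ n = ((4 * (Q + 1)) ^ n) ^ 2 := by
    rw [← pow_mul, ← pow_mul, mul_comm 2 n]
  rw [e]
  set γ := (4 * (Q + 1)) ^ n with hγ
  have h1 : 1 ≤ γ := Nat.one_le_pow _ _ (by omega)
  have h2 : 1 ≤ γ ^ 2 := Nat.one_le_pow _ _ h1
  have h3 : (w * γ) ^ 2 + 1 ≤ (w ^ 2 + 1) * γ ^ 2 := by
    calc (w * γ) ^ 2 + 1 ≤ w ^ 2 * γ ^ 2 + γ ^ 2 := by rw [mul_pow]; omega
      _ = _ := by ring
  calc 1 + k * (w * 2 ^ w ^ 2 * ((w * γ) ^ 2 + 1))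
      ≤ γ ^ 2 + k * (w * 2 ^ w ^ 2 * ((w ^ 2 + 1) * γ ^ 2)) := by gcongr
    _ = _ := by ring

lemma one_le_mixNum (w k Q n : ℕ) : 1 ≤ mixNum w k Q n := by unfold mixNum; omega

/-- Constant for the size of the sets. -/
def CT (m : ℕ) : ℕ := 1 + m * (m * 2 ^ 2 ^ m)

/-- The loss constant. -/
def CC (m k D : ℕ) : ℕ := 2 * m * KR D k * (4 * CT m) * (4 * C2 (m + 1) k)

lemma one_le_KR (D j : ℕ) : 1 ≤ KR D j := by
  induction j using Nat.strong_induction_on with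
  | _ j ih =>
    match j with
    | 0 => simp [KR]
    | 1 => simp [KR]
    | (j + 2) =>
      have := ih (j + 1) (by omega)
      simp only [KR]; omega

lemma c_cond {m k D r Q n p : ℕ} (hm : 1 ≤ m) (hk : 1 ≤ k) (hr : p ≤ r ^ k) (hr1 : 1 ≤ r) :
    16 * CT m * mixNum (m + 1) k Q n ≤ CC m k D * (r * (4 * (Q + 1)) ^ 2) ^ n ∧
    2 * (m ^ k * p ^ n * KR D k) * ((4 * CT m) ^ k * (4 * mixNum (m + 1) k Q n) ^ (k - 1)) ≤
      (CC m k D * (r * (4 * (Q + 1)) ^ 2) ^ n) ^ k := by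
  have hM := mixNum_le (m + 1) k Q n
  have hM1 := one_le_mixNum (m + 1) k Q n
  set M := mixNum (m + 1) k Q n with hMdef
  set g2 := ((4 * (Q + 1)) ^ 2) ^ n with hg2
  have hg21 : 1 ≤ g2 := Nat.one_le_pow _ _ (by positivity)
  have hK := one_le_KR D k
  have hrn : 1 ≤ r ^ n := Nat.one_le_pow _ _ hr1
  have hCT : 1 ≤ CT m := by unfold CT; omega
  have hC2 : 1 ≤ C2 (m + 1) k := by unfold C2; omega
  rw [mul_pow, ← hg2]
  constructor
  · calc 16 * CT m * M ≤ 16 * CT m * (C2 (m + 1) k * g2) := Nat.mul_le_mul_left _ hM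
      _ = 1 * 1 * 1 * (4 * CT m) * (4 * C2 (m + 1) k) * (1 * g2) := by ring
      _ ≤ 2 * m * KR D k * (4 * CT m) * (4 * C2 (m + 1) k) * (r ^ n * g2) := by
          gcongr
          · omega
  · have e1 : (CC m k D * (r ^ n * g2)) ^ k =
        2 ^ k * (m ^ k * (r ^ k) ^ n * KR D k ^ k) * ((4 * CT m) ^ k *
          (4 * (C2 (m + 1) k * g2)) ^ k) := by
      unfold CC
      rw [← pow_mul, mul_comm k n, pow_mul]
      simp only [mul_pow]
      ring
    rw [e1]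
    have h2k : 2 ≤ 2 ^ k := by
      calc 2 = 2 ^ 1 := by norm_num
        _ ≤ 2 ^ k := Nat.pow_le_pow_right (by norm_num) hk
    have hKk : KR D k ≤ KR D k ^ k := Nat.le_self_pow (by omega) _
    have hMk : (4 * M) ^ (k - 1) ≤ (4 * (C2 (m + 1) k * g2)) ^ k := by
      calc (4 * M) ^ (k - 1) ≤ (4 * M) ^ k := Nat.pow_le_pow_right (by omega) (by omega)
        _ ≤ _ := Nat.pow_le_pow_left (by omega) k
    gcongr

end Pool.Agent.EGZ20
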