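import Pool.Agent.EGZ20.ThmA
import Pool.Agent.EGZ20.ChainC
import Pool.Agent.EGZ20.ChainE
import Pool.Agent.EGZ20.Num

/-!
# The main bound
-/

namespace Pool.Agent.EGZ20

open Finset

lemma Rig.subset {G : Type*} [AddCommGroup G] [DecidableEq G] {X : Finset G} {D g : ℕ} {x : G}
    {T T' : Finset G} (h : Rig X D g x T) (hT : T' ⊆ T) : Rig X D g x T' := by
  obtain ⟨U, hU, h2⟩ := h
  exact ⟨U, hU, fun q hq z hz => h2 q hq z (fun i => hT (hz i))⟩

/-- The structure step for all large subsets. -/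
lemma step {p : ℕ} [Fact p.Prime] {n : ℕ} {X : Finset (Fin n → ZMod p)}
    (hX : ∀ Z ⊆ X, Z.card = p → ∑ x ∈ Z, x ≠ 0) {g k r e0 Q : ℕ} (hk : 1 ≤ k)
    (hr : p ≤ r ^ k) (he2 : 2 * k ≤ e0 + 1) (heQ : (p - 1) * k ≤ Q * (e0 + 1))
    (hleft : (g * e0 + p % g) * k + e0 ≤ p / g) {c : ℕ}
    (hc : c = CC (p / g) k (3 * p) * (r * (4 * (Q + 1)) ^ 2) ^ n)
    (S0 : Finset (Fin n → ZMod p)) (hS0 : S0 ⊆ X) (hcard : (2 * c + 3 * p + 1) * c ≤ S0.card)
    (S : Finset (Fin n → ZMod p)) (hS : S ⊆ S0) (hS2 : S0.card ≤ 2 * S.card) :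
    ∃ x ∈ S, ∃ T ⊆ S0, x ∉ T ∧ S0.card ≤ 4 * c * T.card ∧ Rig X (3 * p) g x T := by
  classical
  set m := p / g with hm
  have hm1 : 1 ≤ m := by
    by_contra hcon
    have : m = 0 := by omega
    have : e0 = 0 := by omega
    omega
  have hr1 : 1 ≤ r := by
    by_contra hcon
    have hr0 : r = 0 := by omega
    rw [hr0, zero_pow (by omega)] at hr
    have := (Fact.out : p.Prime).two_le
    omega
  obtain ⟨h1, h2⟩ := c_cond (m := m) (k := k) (D := 3 * p) (r := r) (Q := Q) (n := n) (p := p)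
    hm1 hk hr hr1
  rw [← hc] at h1 h2
  obtain ⟨a1, a2, a3, a4, a5, a6, a7⟩ := conds hk (one_le_mixNum (m + 1) k Q n)
    (by unfold CT; omega : 1 ≤ CT m) h1 h2 hcard
  have hCTL : 1 + m * (m * (2 ^ 2 ^ m * (S0.card / (2 * CT m)))) ≤ CT m * (S0.card / (2 * CT m)) := by
    have hL1 : 1 ≤ S0.card / (2 * CT m) := by
      by_contra hcon
      have : S0.card / (2 * CT m) = 0 := by omega
      rw [this] at a4
      simp at a4
    set L := S0.card / (2 * CT m)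
    unfold CT
    calc 1 + m * (m * (2 ^ 2 ^ m * L)) ≤ L + m * (m * (2 ^ 2 ^ m * L)) := by omega
      _ = _ := by ring
  have hcardS : 1 + m * (m * (2 ^ 2 ^ m * (S0.card / (2 * CT m)))) ≤ S.card := by
    have : 2 * (CT m * (S0.card / (2 * CT m))) ≤ S0.card := by
      calc _ = 2 * CT m * (S0.card / (2 * CT m)) := by ring
        _ ≤ _ := a7
    omega
  obtain ⟨x, hx, T, hT, hTN, hrig⟩ := thmA hX hS0 hS (Nat.div_add_mod p g) le_rfl a1 hk a2 he2 heQ
    hleft a4 a5 a6 hcardS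
  refine ⟨x, hx, T.erase x, (erase_subset _ _).trans hT, notMem_erase _ _, ?_,
    hrig.subset (erase_subset _ _)⟩
  have hp := (Fact.out : p.Prime).two_le
  have h3 : T.card ≤ 2 * (T.erase x).card := by
    have := pred_card_le_card_erase (s := T) (a := x)
    omega
  calc S0.card ≤ 2 * c * (S0.card / c) := a3
    _ ≤ 2 * c * T.card := Nat.mul_le_mul_left _ hTN
    _ ≤ 2 * c * (2 * (T.erase x).card) := Nat.mul_le_mul_left _ h3
    _ = _ := by ring

/-- All chains. -/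
lemma chain_total {G : Type*} [AddCommGroup G] [DecidableEq G] [Fintype G] {X : Finset G} (D g : ℕ)
    (B : Finset (Fin g → G)) (hB : ∀ y ∈ B, (∀ i, y i ∈ X) ∧ Function.Injective y ∧
        ∀ i, ∃ T : Finset G, (∀ j, i < j → y j ∈ T) ∧ Rig X D g (y i) T) :
    B.card ≤ Fintype.card G * (g.factorial * D ^ g) := by
  have h1 : B.card = ∑ w : G, (B.filter (fun y => ∑ i, y i = w)).card :=
    card_eq_sum_card_fiberwise (fun y _ => Finset.mem_coe.mpr (mem_univ _))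
  have h2 : ∀ w : G, (B.filter (fun y => ∑ i, y i = w)).card ≤ g.factorial * D ^ g := by
    intro w
    apply chain_count (X := X) D g g (Nat.le_succ g) w
    · intro y hy; exact (hB y (mem_filter.mp hy).1).1
    · intro y hy; exact (hB y (mem_filter.mp hy).1).2.1
    · intro y hy; exact (mem_filter.mp hy).2
    · intro y hy; exact (hB y (mem_filter.mp hy).1).2.2
  calc B.card = ∑ w : G, (B.filter (fun y => ∑ i, y i = w)).card := h1
    _ ≤ ∑ _w : G, (g.factorial * D ^ g) := sum_le_sum (fun w _ => h2 w)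
    _ = Fintype.card G * (g.factorial * D ^ g) := by
        rw [sum_const, card_univ, smul_eq_mul]

lemma arith_big {x g F P b Cc B K2 : ℕ} (hb : 1 ≤ b)
    (hBc : x ^ g ≤ 2 ^ g * (4 * (Cc * b)) ^ (g.choose 2) * B) (hB2 : B ≤ P * F) :
    x ^ g ≤ (2 ^ g * 4 ^ (g.choose 2) * Cc ^ (g.choose 2) * F + K2) *
      (P * b ^ (g * (g + 2))) := by
  have hch : g.choose 2 ≤ g * (g + 2) := by
    calc g.choose 2 ≤ g ^ 2 := Nat.choose_le_pow g 2
      _ ≤ _ := by nlinarith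
  generalize g.choose 2 = q at *
  calc x ^ g ≤ 2 ^ g * (4 * (Cc * b)) ^ q * B := hBc
    _ ≤ 2 ^ g * (4 * (Cc * b)) ^ q * (P * F) := Nat.mul_le_mul_left _ hB2
    _ = (2 ^ g * 4 ^ q * Cc ^ q * F) * (P * b ^ q) := by
        simp only [mul_pow]; ring
    _ ≤ (2 ^ g * 4 ^ q * Cc ^ q * F) * (P * b ^ (g * (g + 2))) :=
        Nat.mul_le_mul_left _ (Nat.mul_le_mul_left _ (Nat.pow_le_pow_right hb hch))
    _ ≤ _ := Nat.mul_le_mul_right _ (Nat.le_add_right _ _)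

lemma arith_small {x g P b Cc d K1 : ℕ} (hP : 1 ≤ P) (hc1 : 1 ≤ Cc * b)
    (h : x ≤ (2 * (Cc * b) + d + 1) * (Cc * b) * (4 * (Cc * b)) ^ g) :
    x ^ g ≤ (K1 + ((d + 3) * 4 ^ g * Cc ^ (g + 2)) ^ g) * (P * b ^ (g * (g + 2))) := by
  have h1 : x ≤ (d + 3) * 4 ^ g * (Cc * b) ^ (g + 2) := by
    refine h.trans ?_
    generalize Cc * b = c at *
    calc (2 * c + d + 1) * c * (4 * c) ^ g ≤ ((d + 3) * c) * c * (4 * c) ^ g := by
          apply Nat.mul_le_mul_right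
          apply Nat.mul_le_mul_right
          nlinarith
      _ = _ := by rw [mul_pow]; ring
  calc x ^ g ≤ ((d + 3) * 4 ^ g * (Cc * b) ^ (g + 2)) ^ g := Nat.pow_le_pow_left h1 g
    _ = ((d + 3) * 4 ^ g * Cc ^ (g + 2)) ^ g * (1 * b ^ (g * (g + 2))) := by
        rw [mul_pow Cc b, ← mul_assoc, mul_pow _ (b ^ (g + 2)), ← pow_mul b,
          mul_comm (g + 2) g, one_mul]
    _ ≤ ((d + 3) * 4 ^ g * Cc ^ (g + 2)) ^ g * (P * b ^ (g * (g + 2))) :=
        Nat.mul_le_mul_left _ (Nat.mul_le_mul_right _ hP)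
    _ ≤ _ := Nat.mul_le_mul_right _ (Nat.le_add_left _ _)

/-- The main bound. -/
theorem main_bound (p : ℕ) [Fact p.Prime] (g k r e0 Q : ℕ) (hk : 1 ≤ k)
    (hr : p ≤ r ^ k) (he2 : 2 * k ≤ e0 + 1) (heQ : (p - 1) * k ≤ Q * (e0 + 1))
    (hleft : (g * e0 + p % g) * k + e0 ≤ p / g) :
    ∃ C : ℕ, ∀ (n : ℕ) (X : Finset (Fin n → ZMod p)),
      (∀ Z ⊆ X, Z.card = p → ∑ x ∈ Z, x ≠ 0) →
      X.card ^ g ≤ C * (p * (r * (4 * (Q + 1)) ^ 2) ^ (g * (g + 2))) ^ n := by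
  classical
  have hp2 := (Fact.out : p.Prime).two_le
  have hr1 : 1 ≤ r := by
    by_contra hcon
    have hr0 : r = 0 := by omega
    rw [hr0, zero_pow (by omega)] at hr
    omega
  obtain ⟨Cc, hCc⟩ : ∃ Cc, Cc = CC (p / g) k (3 * p) := ⟨_, rfl⟩
  have hCc1 : 1 ≤ Cc := by
    rw [hCc]
    unfold CC
    have h1 := one_le_KR (3 * p) k
    have h2 : 1 ≤ CT (p / g) := by unfold CT; omega
    have h3 : 1 ≤ C2 (p / g + 1) k := by unfold C2; omega
    have h4 : 1 ≤ p / g := by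
      by_contra hcon
      have h5 : p / g = 0 := by omega
      rw [h5] at hleft
      omega
    generalize KR (3 * p) k = a1 at *
    generalize CT (p / g) = a2 at *
    generalize C2 (p / g + 1) k = a3 at *
    generalize p / g = a4 at *
    have : 0 < 2 * a4 * a1 * (4 * a2) * (4 * a3) := by positivity
    omega
  refine ⟨(2 ^ g * 4 ^ (g.choose 2) * Cc ^ (g.choose 2) * (g.factorial * (3 * p) ^ g)) +
    ((3 * p + 3) * 4 ^ g * Cc ^ (g + 2)) ^ g, ?_⟩
  intro n X hX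
  obtain ⟨b, hb⟩ : ∃ b, b = (r * (4 * (Q + 1)) ^ 2) ^ n := ⟨_, rfl⟩
  have hb1 : 1 ≤ b := by rw [hb]; exact Nat.one_le_pow _ _ (by positivity)
  obtain ⟨c, hc⟩ : ∃ c, c = Cc * b := ⟨_, rfl⟩
  have hc1 : 1 ≤ c := by rw [hc]; exact Nat.mul_pos hCc1 hb1
  have hpn1 : 1 ≤ p ^ n := Nat.one_le_pow _ _ (by omega)
  have hfin : (p * (r * (4 * (Q + 1)) ^ 2) ^ (g * (g + 2))) ^ n = p ^ n * b ^ (g * (g + 2)) := by
    rw [mul_pow, hb, ← pow_mul, ← pow_mul, mul_comm n]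
  rw [hfin]
  by_cases hbig : (2 * c + 3 * p + 1) * c * (4 * c) ^ g ≤ X.card
  · have hc' : c = CC (p / g) k (3 * p) * (r * (4 * (Q + 1)) ^ 2) ^ n := by rw [hc, hb, hCc]
    obtain ⟨B, hB, hBc⟩ := chain_exists (X := X) (3 * p) g (4 * c) ((2 * c + 3 * p + 1) * c)
      (by omega) (fun S hS hSc S' hS' hS2 => step hX hk hr he2 heQ hleft hc' S hS hSc S' hS' hS2)
      g X (subset_refl _) hbig
    have hB2 := chain_total (3 * p) g B hB
    rw [Fintype.card_fun, ZMod.card, Fintype.card_fin] at hB2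
    rw [hc] at hBc
    exact arith_big hb1 hBc hB2
  · rw [not_le, hc] at hbig
    rw [hc] at hc1
    exact arith_small hpn1 hc1 hbig.le

end Pool.Agent.EGZ20
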