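import Pool.Agent.EGZ20.MixCore
import Pool.Agent.EGZ20.Extract
import Pool.Agent.EGZ20.Defs

/-!
# The mixing lemma
-/

namespace Pool.Agent.EGZ20

open Finset

namespace MixAux

theorem claim {p : ℕ} [Fact p.Prime] {n Q k : ℕ} {Ω V : Type*} [Fintype Ω] [DecidableEq Ω]
    [DecidableEq V] (o : Ω) (a : V → Ω → (Fin n → ZMod p))
    (ha : ∀ v, ∑ s, a v s = 0) (hΩ : 2 * k ≤ Fintype.card Ω - 1)
    (hQ : (p - 1) * k ≤ Q * (Fintype.card Ω - 1)) (R : ℕ) :
    R ≤ k → ∀ V' : Finset V,
    1 + R * (Fintype.card Ω * 2 ^ ((Fintype.card Ω) ^ 2) *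
      ((Fintype.card Ω * (4 * (Q + 1)) ^ n) ^ 2 + 1)) ≤ V'.card →
    ∃ ι : Ω → V, ∑ s, a (ι s) s = 0 ∧ univ.image ι ⊆ V' ∧ R + 1 ≤ (univ.image ι).card := by
  induction R with
  | zero =>
    intro _ V' hV'
    obtain ⟨v, hv⟩ : V'.Nonempty := by
      rw [← card_pos]; omega
    refine ⟨fun _ => v, ha v, ?_, ?_⟩
    · intro x hx
      obtain ⟨_, _, rfl⟩ := mem_image.1 hx
      exact hv
    · have : (univ.image fun _ : Ω => v).Nonempty := ⟨v, mem_image.2 ⟨o, mem_univ _, rfl⟩⟩
      have := card_pos.2 this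
      omega
  | succ R ih =>
    intro hRk V' hV'
    by_contra hno
    push Not at hno
    set w := Fintype.card Ω with hw
    set m1 := w * (4 * (Q + 1)) ^ n with hm1
    set t := 2 ^ (w ^ 2) * (m1 ^ 2 + 1) with ht
    have hY : w * 2 ^ (w ^ 2) * (m1 ^ 2 + 1) = w * t := by rw [ht]; ring
    rw [hY] at ih hV'
    have hin : 1 + R * (w * t) + w * t ≤ V'.card := by
      refine le_trans (le_of_eq ?_) hV'
      ring
    obtain ⟨f, hf1, hf2⟩ := extract (α := Ω → V) (β := V) (fun ι => univ.image ι)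
      (fun ι => ∑ s, a (ι s) s = 0 ∧ (univ.image ι).card = R + 1) w (1 + R * (w * t)) V'
      (by
        intro S' hS' hc
        obtain ⟨ι, h1, h2, h3⟩ := ih (by omega) S' hc
        refine ⟨ι, ⟨h1, ?_⟩, h2⟩
        have := hno ι h1 (h2.trans hS')
        omega)
      (by
        intro ι
        exact card_image_le.trans (by rw [card_univ]))
      t hin
    classical
    let ker : Fin t → Finset (Ω × Ω) := fun i => univ.filter fun q => f i q.1 = f i q.2
    have hcard : (univ : Finset (Finset (Ω × Ω))).card * (m1 ^ 2 + 1) ≤ (univ : Finset (Fin t)).card := by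
      rw [card_univ, Fintype.card_finset, Fintype.card_prod, card_univ, Fintype.card_fin, ht, ← hw,
        pow_two w]
    obtain ⟨K, -, hK⟩ := exists_le_card_fiber_of_mul_le_card_of_maps_to
      (s := (univ : Finset (Fin t))) (t := (univ : Finset (Finset (Ω × Ω)))) (f := ker)
      (fun i _ => mem_univ _) univ_nonempty hcard
    have hker : ∀ i, ker i = K → ∀ s s', f i s = f i s' ↔ (s, s') ∈ K := by
      intro i hi s s'
      rw [← hi]
      simp only [ker, mem_filter, mem_univ, true_and]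
    have hMc : m1 ^ 2 + 1 ≤ Fintype.card {i : Fin t // ker i = K} := by
      rw [Fintype.card_subtype]
      exact hK
    obtain ⟨ι, h1, h2, h3⟩ := mix_core (M := {i : Fin t // ker i = K}) o a
      (fun μ => f μ.1) (fun μ => (hf1 μ.1).1.1)
      (fun μ μ' s s' => (hker μ.1 μ.2 s s').trans (hker μ'.1 μ'.2 s s').symm)
      (fun μ μ' hne s s' h => by
        have hd := hf2 μ.1 μ'.1 (fun h' => hne (Subtype.ext h'))
        rw [disjoint_left] at hd
        exact hd (mem_image.2 ⟨s, mem_univ _, rfl⟩) (mem_image.2 ⟨s', mem_univ _, h.symm⟩))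
      (fun μ => by
        have := (hf1 μ.1).1.2
        omega)
      hΩ hQ hMc
    have hpos : 0 < Fintype.card {i : Fin t // ker i = K} := by omega
    obtain ⟨μ⟩ := Fintype.card_pos_iff.1 hpos
    have h4 := h3 μ
    rw [(hf1 μ.1).1.2] at h4
    have h5 : univ.image ι ⊆ V' := by
      intro x hx
      obtain ⟨s, _, rfl⟩ := mem_image.1 hx
      obtain ⟨ν, s', hs'⟩ := h2 s
      rw [hs']
      exact (hf1 ν.1).2 (mem_image.2 ⟨s', mem_univ _, rfl⟩)
    have := hno ι h1 h5
    omega

end MixAux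

/-- The mixing lemma. Call `ι : Ω → V` a *solution* if `∑ s, a (ι s) s = 0`; constants are solutions.

PROOF. Put `w = card Ω`, `m1 = w * (4(Q+1))^n`, `Y = w * (2^(w^2) * (m1^2+1))`, so
`mixNum w k Q n = 1 + k * Y`. CLAIM: for `R ≤ k` and every `V' ⊆ V` (finset) with `1 + R*Y ≤ |V'|` there
is a solution with values in `V'` and at least `R+1` different values. Induction on `R`; `R = 0`: a
constant. `R → R+1 ≤ k`: let `1 + (R+1) Y ≤ |V'|` and suppose that no solution with values in `V'` has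
`≥ R+2` values. By the induction hypothesis and `extract` (`im ι = univ.image ι`, `b = w`,
`N0 = 1 + R*Y`, `t = 2^(w^2) * (m1^2+1)`, `Good` = solution with exactly `R+1` values) there are `t`
solutions in `V'` with exactly `R+1` values each and pairwise disjoint images. By pigeonhole over the
kernels `{(s,s') | ι s = ι s'} : Finset (Ω × Ω)` (`2^(w^2)` of them), at least `m1^2+1` of them have the
same kernel. `mix_core` gives a solution with values in `V'` and `≥ R+2` values. Finally apply the claim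
with `R = k`, `V' = univ`. -/
theorem mix {p : ℕ} [Fact p.Prime] {n Q k : ℕ} {Ω V : Type*} [Fintype Ω] [DecidableEq Ω]
    [Fintype V] [DecidableEq V] (o : Ω) (a : V → Ω → (Fin n → ZMod p))
    (ha : ∀ v, ∑ s, a v s = 0) (hΩ : 2 * k ≤ Fintype.card Ω - 1)
    (hQ : (p - 1) * k ≤ Q * (Fintype.card Ω - 1))
    (hV : mixNum (Fintype.card Ω) k Q n ≤ Fintype.card V) :
    ∃ ι : Ω → V, ∑ s, a (ι s) s = 0 ∧ k + 1 ≤ (univ.image ι).card := by
  obtain ⟨ι, h1, -, h3⟩ := MixAux.claim o a ha hΩ hQ k le_rfl (univ : Finset V)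
    (by rw [card_univ]; exact hV)
  exact ⟨ι, h1, h3⟩

end Pool.Agent.EGZ20
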