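import Pool.Agent.EGZ20.SR

/-!
# The mixing lemma: core
-/

namespace Pool.Agent.EGZ20

open Finset

namespace MixCoreAux

variable {p : ℕ} {n Q k : ℕ} {Ω V M : Type*} [Fintype Ω] [DecidableEq Ω]
    [DecidableEq V] [Fintype M] [DecidableEq M]

/-- `sr` for the slots `Option B` -/
theorem slot1 [Fact p.Prime] (a : V → Ω → (Fin n → ZMod p))
    (f : M → Ω → V) (hf : ∀ μ, ∑ s, a (f μ s) s = 0) (B : Finset Ω) (M0 : Finset M)
    (hcard : (B.card + 1) * (4 * (Q + 1)) ^ n < M0.card) (hQ : p - 1 ≤ Q * (B.card + 1))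
    (h1 : 1 ≤ B.card) :
    ∃ (j : Ω → M) (μn : M), μn ∈ M0 ∧ (∀ s ∈ B, j s ∈ M0) ∧ (∀ s, s ∉ B → j s = μn) ∧
      ∑ s, a (f (j s) s) s = 0 ∧ ∃ s ∈ B, j s ≠ μn := by
  classical
  by_contra hcon
  have hsum : ∀ g : Ω → (Fin n → ZMod p), ∑ s, g s = (∑ s ∈ univ \ B, g s) + ∑ s ∈ B, g s :=
    fun g => (Finset.sum_sdiff (Finset.subset_univ B)).symm
  have h := sr (p := p) (n := n) (Q := Q) (Ω := Option {s // s ∈ B}) (V := {μ // μ ∈ M0})
    (fun μ s => match s with
      | none => ∑ s ∈ univ \ B, a (f μ.1 s) s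
      | some s => a (f μ.1 s.1) s.1) 0
    (by rw [Fintype.card_option, Fintype.card_coe]; exact hQ)
    (by rw [Fintype.card_option, Fintype.card_coe]; omega)
    (by
      intro μ
      rw [Fintype.sum_option]
      change (∑ s ∈ univ \ B, a (f μ.1 s) s) + ∑ s : {s // s ∈ B}, a (f μ.1 s.1) s.1 = 0
      rw [Finset.sum_coe_sort B (fun s => a (f μ.1 s) s), ← hsum]
      exact hf μ.1)
    (by
      intro ι' h0
      rw [Fintype.sum_option] at h0
      change (∑ s ∈ univ \ B, a (f (ι' none).1 s) s) +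
        ∑ s : {s // s ∈ B}, a (f (ι' (some s)).1 s.1) s.1 = 0 at h0
      let j : Ω → M := fun s => if hs : s ∈ B then (ι' (some ⟨s, hs⟩)).1 else (ι' none).1
      have hj1 : ∀ s (hs : s ∈ B), j s = (ι' (some ⟨s, hs⟩)).1 := fun s hs => dif_pos hs
      have hj2 : ∀ s, s ∉ B → j s = (ι' none).1 := fun s hs => dif_neg hs
      have h2 : ∑ s, a (f (j s) s) s = 0 := by
        rw [hsum, ← h0]
        congr 1
        · refine Finset.sum_congr rfl fun s hs => ?_
          rw [hj2 s (Finset.mem_sdiff.1 hs).2]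
        · rw [← Finset.sum_coe_sort B (fun s => a (f (j s) s) s)]
          refine Finset.sum_congr rfl fun s _ => ?_
          rw [hj1 s.1 s.2]
      have h3 : ∀ s, ι' (some s) = ι' none := by
        intro s
        by_contra hne
        apply hcon
        refine ⟨j, (ι' none).1, (ι' none).2, ?_, hj2, h2, s.1, s.2, ?_⟩
        · intro s' hs'
          rw [hj1 s' hs']
          exact (ι' (some ⟨s', hs'⟩)).2
        · rw [hj1 s.1 s.2]
          intro h4
          exact hne (Subtype.ext h4)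
      have h4 : ∀ s, ι' s = ι' none := by
        intro s
        cases s with
        | none => rfl
        | some s => exact h3 s
      intro s s'
      rw [h4 s, h4 s'])
  rw [Fintype.card_option, Fintype.card_coe, Fintype.card_coe] at h
  omega

/-- `sr` for the slots `B` -/
theorem slot2 [Fact p.Prime] (a : V → Ω → (Fin n → ZMod p))
    (f : M → Ω → V) (B : Finset Ω) (M1 : Finset M) (τ : Fin n → ZMod p)
    (hτ : ∀ μ ∈ M1, ∑ s ∈ B, a (f μ s) s = τ)
    (hcard : B.card * (4 * (Q + 1)) ^ n < M1.card) (hQ : p - 1 ≤ Q * B.card)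
    (h2 : 2 ≤ B.card) (μn : M) :
    ∃ j : Ω → M, (∀ s, s ∉ B → j s = μn) ∧ ∑ s ∈ B, a (f (j s) s) s = τ ∧
      ∃ s1 ∈ B, ∃ s2 ∈ B, j s1 ≠ j s2 := by
  classical
  by_contra hcon
  have h := sr (p := p) (n := n) (Q := Q) (Ω := {s // s ∈ B}) (V := {μ // μ ∈ M1})
    (fun μ s => a (f μ.1 s.1) s.1) τ
    (by rw [Fintype.card_coe]; exact hQ)
    (by rw [Fintype.card_coe]; exact h2)
    (by
      intro μ
      change ∑ s : {s // s ∈ B}, a (f μ.1 s.1) s.1 = τ
      rw [Finset.sum_coe_sort B (fun s => a (f μ.1 s) s)]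
      exact hτ μ.1 μ.2)
    (by
      intro ι' h0
      change ∑ s : {s // s ∈ B}, a (f (ι' s).1 s.1) s.1 = τ at h0
      let j : Ω → M := fun s => if hs : s ∈ B then (ι' ⟨s, hs⟩).1 else μn
      have hj1 : ∀ s (hs : s ∈ B), j s = (ι' ⟨s, hs⟩).1 := fun s hs => dif_pos hs
      have hj2 : ∀ s, s ∉ B → j s = μn := fun s hs => dif_neg hs
      have h2 : ∑ s ∈ B, a (f (j s) s) s = τ := by
        rw [← h0, ← Finset.sum_coe_sort B (fun s => a (f (j s) s) s)]
        refine Finset.sum_congr rfl fun s _ => ?_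
        rw [hj1 s.1 s.2]
      intro s s'
      by_contra hne
      apply hcon
      refine ⟨j, hj2, h2, s.1, s.2, s'.1, s'.2, ?_⟩
      rw [hj1 s.1 s.2, hj1 s'.1 s'.2]
      intro h4
      exact hne (Subtype.ext h4))
  rw [Fintype.card_coe, Fintype.card_coe] at h
  omega

/-- the number of values, class inside `B` -/
theorem count2 (f : M → Ω → V)
    (hker : ∀ μ μ' s s', f μ s = f μ s' ↔ f μ' s = f μ' s')
    (hdisj : ∀ μ μ', μ ≠ μ' → ∀ s s', f μ s ≠ f μ' s')
    (B : Finset Ω) (μ0 : M) (v : V) (hB : ∀ s, s ∈ B ↔ f μ0 s = v) (j : Ω → M) (μn : M)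
    (hj : ∀ s, s ∉ B → j s = μn) {s1 s2 : Ω} (h1 : s1 ∈ B) (h2 : s2 ∈ B) (h12 : j s1 ≠ j s2) :
    (univ.image (f μn)).card + 1 ≤ (univ.image fun s => f (j s) s).card := by
  classical
  have hcls : ∀ s ∈ B, f μn s = f μn s1 := by
    intro s hs
    rw [hker μn μ0]
    rw [(hB s).1 hs, (hB s1).1 h1]
  have hmem : f μn s1 ∈ univ.image (f μn) := Finset.mem_image_of_mem _ (Finset.mem_univ _)
  -- a value in the image of `f μn` at a slot of `B` is the class value
  have hval : ∀ s ∈ B, f (j s) s ∈ univ.image (f μn) → f (j s) s = f μn s1 := by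
    intro s hs hx
    obtain ⟨s', _, hs'⟩ := Finset.mem_image.1 hx
    have h3 : j s = μn := by
      by_contra hne
      exact hdisj (j s) μn hne s s' hs'.symm
    rw [h3]
    exact hcls s hs
  have hn1 : f (j s1) s1 ∉ (univ.image (f μn)).erase (f μn s1) := by
    intro hx
    obtain ⟨hx1, hx2⟩ := Finset.mem_erase.1 hx
    exact hx1 (hval s1 h1 hx2)
  have hn2 : f (j s2) s2 ∉ insert (f (j s1) s1) ((univ.image (f μn)).erase (f μn s1)) := by
    intro hx
    rcases Finset.mem_insert.1 hx with hx | hx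
    · exact hdisj (j s2) (j s1) h12.symm s2 s1 hx
    · obtain ⟨hx1, hx2⟩ := Finset.mem_erase.1 hx
      exact hx1 (hval s2 h2 hx2)
  have hsub : insert (f (j s2) s2) (insert (f (j s1) s1)
      ((univ.image (f μn)).erase (f μn s1))) ⊆ univ.image fun s => f (j s) s := by
    intro x hx
    rcases Finset.mem_insert.1 hx with rfl | hx
    · exact Finset.mem_image_of_mem (fun s => f (j s) s) (Finset.mem_univ s2)
    rcases Finset.mem_insert.1 hx with rfl | hx
    · exact Finset.mem_image_of_mem (fun s => f (j s) s) (Finset.mem_univ s1)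
    · obtain ⟨hx1, hx2⟩ := Finset.mem_erase.1 hx
      obtain ⟨s', _, rfl⟩ := Finset.mem_image.1 hx2
      have hs' : s' ∉ B := fun hs => hx1 (hcls s' hs)
      refine Finset.mem_image.2 ⟨s', Finset.mem_univ _, ?_⟩
      rw [hj s' hs']
  have hc := Finset.card_le_card hsub
  rw [Finset.card_insert_of_notMem hn2, Finset.card_insert_of_notMem hn1,
    Finset.card_erase_of_mem hmem] at hc
  have hpos := Finset.card_pos.2 ⟨_, hmem⟩
  omega

/-- the number of values, class with a slot outside `B` -/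
theorem count1 (f : M → Ω → V)
    (hker : ∀ μ μ' s s', f μ s = f μ s' ↔ f μ' s = f μ' s')
    (hdisj : ∀ μ μ', μ ≠ μ' → ∀ s s', f μ s ≠ f μ' s')
    (B : Finset Ω) (μ0 : M) (o : Ω) (ho : o ∉ B) (hB : ∀ s ∈ B, f μ0 s = f μ0 o) (j : Ω → M)
    (μn : M) (hj : ∀ s, s ∉ B → j s = μn) {s1 : Ω} (h12 : j s1 ≠ μn) :
    (univ.image (f μn)).card + 1 ≤ (univ.image fun s => f (j s) s).card := by
  classical
  have hn1 : f (j s1) s1 ∉ univ.image (f μn) := by
    intro hx
    obtain ⟨s', _, hs'⟩ := Finset.mem_image.1 hx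
    exact hdisj (j s1) μn h12 s1 s' hs'.symm
  have hsub : insert (f (j s1) s1) (univ.image (f μn)) ⊆ univ.image fun s => f (j s) s := by
    intro x hx
    rcases Finset.mem_insert.1 hx with rfl | hx
    · exact Finset.mem_image_of_mem (fun s => f (j s) s) (Finset.mem_univ s1)
    · obtain ⟨s', _, rfl⟩ := Finset.mem_image.1 hx
      by_cases hs' : s' ∈ B
      · have h3 : f μn s' = f μn o := by
          rw [hker μn μ0]
          exact hB s' hs'
        refine Finset.mem_image.2 ⟨o, Finset.mem_univ _, ?_⟩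
        rw [hj o ho, h3]
      · refine Finset.mem_image.2 ⟨s', Finset.mem_univ _, ?_⟩
        rw [hj s' hs']
  have hc := Finset.card_le_card hsub
  rwa [Finset.card_insert_of_notMem hn1] at hc

/-- all the images have the same cardinality -/
theorem card_eq (f : M → Ω → V)
    (hker : ∀ μ μ' s s', f μ s = f μ s' ↔ f μ' s = f μ' s') (μ μ' : M) :
    (univ.image (f μ)).card ≤ (univ.image (f μ')).card := by
  classical
  rcases isEmpty_or_nonempty Ω with hem | hne
  · have h0 : (univ : Finset Ω) = ∅ := Finset.univ_eq_empty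
    rw [h0, Finset.image_empty, Finset.image_empty]
  have hch : ∀ v ∈ univ.image (f μ), ∃ s, f μ s = v := by
    intro v hv
    obtain ⟨s, _, hs⟩ := Finset.mem_image.1 hv
    exact ⟨s, hs⟩
  choose! g hg using hch
  refine Finset.card_le_card_of_injOn (fun v => f μ' (g v)) ?_ ?_
  · intro v _
    exact Finset.mem_coe.2 (Finset.mem_image_of_mem _ (Finset.mem_univ _))
  · intro v hv v' hv' h
    rw [← hg v (Finset.mem_coe.1 hv), ← hg v' (Finset.mem_coe.1 hv')]
    exact (hker μ' μ _ _).1 h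

end MixCoreAux

/-- Core of the mixing lemma. A *solution* is a map `ι : Ω → V` with `∑ s, a (ι s) s = 0`.
`f μ` (`μ ∈ M`) are solutions with the same kernel and pairwise disjoint images.

PROOF. Put `w = card Ω`, `m1 = w * (4(Q+1))^n`, so `m1^2 < |M|`. Fix `μ0`; `R = |image (f μ0)| ≤ k` is the
number of kernel classes (the same for all `μ`). Since `Ω \ {o}` is the union of the `R ≤ k` sets
`C \ {o}`, `C` a class, some class `C` has `B := C \ {o}` with `w - 1 ≤ k |B|`; hence `2 ≤ |B|`
(`hΩ`) and `p - 1 ≤ Q |B|` (`hQ`). (`k ≥ 1` because `R ≥ 1`.) For a map `j` from slots to `M` the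
*composition* is `s ↦ f (j s) s`.
Case A, `o ∈ C`. Apply `sr` to `M` with slots `Option B` (`some s ↦ a (f μ s) s`,
`none ↦ ∑_{s ∉ B} a (f μ s) s`, target `0`, `card (Option B) = |B| + 1 ≤ w`): as `|M| > m1` there is a
nonconstant `j : Option B → M` with sum `0`. Let `ι s = f (j s) s` for `s ∈ B`, `ι s = f (j none) s` for
`s ∉ B`. Outside `B` it takes all `R` values of `f (j none)` (every class meets the complement of `B`,
the class `C` in `o`), and some `s ∈ B` has `j s ≠ j none`, giving one more value (disjoint images).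
Case B, `o ∉ C` (so `B = C`). Let `σ μ = ∑_{s ∈ B} a (f μ s) s`. If `M0 ⊆ M` has more than `m1` elements,
`sr` with slots `Option B` and `V = M0` gives a nonconstant `j : Option B → M0` with sum `0`; if `j` is not
constant on `B`, the composition (`j none` outside `B`) has at least `(R-1) + 2` values: the `R-1` values
of `f (j none)` on the other classes, and `f (j s) s`, `f (j s') s'` for `j s ≠ j s'` (different from each
other, and from the former since `s, s' ∈ C`), and we are done. Otherwise `j = μ1` on `B`,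
`j none = μ2 ≠ μ1` and `σ μ1 = - ∑_{s ∉ B} a (f μ2 s) s = σ μ2`. Hence we may assume that `σ` is not
injective on any `M0` with more than `m1` elements, so `σ` takes at most `m1` values on `M` (take one
`μ` for each value), and since `|M| > m1^2` some value `τ` is taken on a set `M1` with `|M1| > m1`.
Apply `sr` to `M1` with slots `B`, target `τ` (`2 ≤ |B|`): there is a nonconstant `j : B → M1` with
`∑_{s ∈ B} a (f (j s) s) s = τ`. Take any `μ0 ∈ M1`; the composition (`μ0` outside `B`) is a solution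
(`∑_{s ∉ B} a (f μ0 s) s = - τ`) with at least `(R-1) + 2` values. -/
theorem mix_core {p : ℕ} [Fact p.Prime] {n Q k : ℕ} {Ω V M : Type*} [Fintype Ω] [DecidableEq Ω]
    [DecidableEq V] [Fintype M] [DecidableEq M] (o : Ω) (a : V → Ω → (Fin n → ZMod p))
    (f : M → Ω → V) (hf : ∀ μ, ∑ s, a (f μ s) s = 0)
    (hker : ∀ μ μ' s s', f μ s = f μ s' ↔ f μ' s = f μ' s')
    (hdisj : ∀ μ μ', μ ≠ μ' → ∀ s s', f μ s ≠ f μ' s')
    (hR : ∀ μ, (univ.image (f μ)).card ≤ k)
    (hΩ : 2 * k ≤ Fintype.card Ω - 1) (hQ : (p - 1) * k ≤ Q * (Fintype.card Ω - 1))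
    (hM : (Fintype.card Ω * (4 * (Q + 1)) ^ n) ^ 2 + 1 ≤ Fintype.card M) :
    ∃ ι : Ω → V, ∑ s, a (ι s) s = 0 ∧ (∀ s, ∃ μ s', ι s = f μ s') ∧
      ∀ μ, (univ.image (f μ)).card + 1 ≤ (univ.image ι).card := by
  classical
  set c : ℕ := (4 * (Q + 1)) ^ n with hc
  set w : ℕ := Fintype.card Ω with hw
  have hMpos : 0 < Fintype.card M := by omega
  obtain ⟨μ0⟩ := Fintype.card_pos_iff.1 hMpos
  have hm1 : w * c ≤ (w * c) ^ 2 := Nat.le_self_pow (by norm_num) _
  have hcardM : w * c < Fintype.card M := by omega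
  have hkpos : 1 ≤ k := by
    have h1 : 0 < (univ.image (f μ0)).card :=
      Finset.card_pos.2 ⟨f μ0 o, Finset.mem_image_of_mem _ (Finset.mem_univ _)⟩
    have h2 := hR μ0
    omega
  -- a large class
  have hclass : ∃ v ∈ univ.image (f μ0),
      w - 1 ≤ k * ((univ.erase o).filter fun s => f μ0 s = v).card := by
    by_contra hcon
    push Not at hcon
    have hmaps : ∀ s ∈ univ.erase o, f μ0 s ∈ univ.image (f μ0) := fun s _ =>
      Finset.mem_image_of_mem _ (Finset.mem_univ _)
    have h1 := Finset.card_eq_sum_card_fiberwise hmaps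
    rw [Finset.card_erase_of_mem (Finset.mem_univ _), Finset.card_univ, ← hw] at h1
    have h2 : k * (w - 1) ≤ k * (w - 2) := by
      calc k * (w - 1) = ∑ v ∈ univ.image (f μ0),
            k * ((univ.erase o).filter fun s => f μ0 s = v).card := by
              rw [h1, Finset.mul_sum]
        _ ≤ ∑ _v ∈ univ.image (f μ0), (w - 2) := by
              refine Finset.sum_le_sum fun v hv => ?_
              have := hcon v hv
              omega
        _ = (univ.image (f μ0)).card * (w - 2) := by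
              rw [Finset.sum_const, smul_eq_mul]
        _ ≤ k * (w - 2) := Nat.mul_le_mul_right _ (hR μ0)
    have h3 := Nat.le_of_mul_le_mul_left h2 hkpos
    omega
  obtain ⟨v, hv, hvB⟩ := hclass
  set B : Finset Ω := (univ.erase o).filter fun s => f μ0 s = v with hBdef
  have hmemB : ∀ s, s ∈ B ↔ s ≠ o ∧ f μ0 s = v := by
    intro s
    rw [hBdef, Finset.mem_filter, Finset.mem_erase]
    constructor
    · rintro ⟨⟨h1, _⟩, h2⟩
      exact ⟨h1, h2⟩
    · rintro ⟨h1, h2⟩
      exact ⟨⟨h1, Finset.mem_univ _⟩, h2⟩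
  have hoB : o ∉ B := fun h => ((hmemB o).1 h).1 rfl
  have hB2 : 2 ≤ B.card := by
    have h1 : k * 2 ≤ k * B.card := by omega
    exact Nat.le_of_mul_le_mul_left h1 hkpos
  have hBQ : p - 1 ≤ Q * B.card := by
    have h1 : k * (p - 1) ≤ k * (Q * B.card) := by
      calc k * (p - 1) = (p - 1) * k := Nat.mul_comm _ _
        _ ≤ Q * (w - 1) := hQ
        _ ≤ Q * (k * B.card) := Nat.mul_le_mul_left _ hvB
        _ = k * (Q * B.card) := by ring
    exact Nat.le_of_mul_le_mul_left h1 hkpos
  have hBw : B.card + 1 ≤ w := by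
    have h1 : B ⊆ univ.erase o := Finset.filter_subset _ _
    have h2 := Finset.card_le_card h1
    rw [Finset.card_erase_of_mem (Finset.mem_univ _), Finset.card_univ, ← hw] at h2
    have h3 : 0 < w := Fintype.card_pos_iff.2 ⟨o⟩
    omega
  have hBQ1 : p - 1 ≤ Q * (B.card + 1) := hBQ.trans (Nat.mul_le_mul_left _ (Nat.le_succ _))
  have hb1 : (B.card + 1) * c ≤ w * c := Nat.mul_le_mul_right _ hBw
  have hb2 : B.card * c ≤ w * c := Nat.mul_le_mul_right _ (by omega)
  -- conclusion from a composition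
  have hfin : ∀ (j : Ω → M) (μn : M), ∑ s, a (f (j s) s) s = 0 →
      (univ.image (f μn)).card + 1 ≤ (univ.image fun s => f (j s) s).card →
      ∃ ι : Ω → V, ∑ s, a (ι s) s = 0 ∧ (∀ s, ∃ μ s', ι s = f μ s') ∧
        ∀ μ, (univ.image (f μ)).card + 1 ≤ (univ.image ι).card := by
    intro j μn h1 h2
    refine ⟨fun s => f (j s) s, h1, fun s => ⟨j s, s, rfl⟩, fun μ => ?_⟩
    have h3 := MixCoreAux.card_eq f hker μ μn
    omega
  by_cases hov : f μ0 o = v
  · -- case A
    obtain ⟨j, μn, _, _, hj, h0, s1, _, hs1⟩ := MixCoreAux.slot1 (Q := Q) a f hf B univ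
      (by rw [Finset.card_univ, ← hc]; omega) hBQ1 (by omega)
    refine hfin j μn h0 (MixCoreAux.count1 f hker hdisj B μ0 o hoB ?_ j μn hj hs1)
    intro s hs
    rw [((hmemB s).1 hs).2, hov]
  · -- case B
    have hB' : ∀ s, s ∈ B ↔ f μ0 s = v := by
      intro s
      rw [hmemB]
      constructor
      · exact fun h => h.2
      · intro h
        refine ⟨?_, h⟩
        rintro rfl
        exact hov h
    by_contra hcon
    let σ : M → (Fin n → ZMod p) := fun μ => ∑ s ∈ B, a (f μ s) s
    have hsum : ∀ g : Ω → (Fin n → ZMod p),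
        ∑ s, g s = (∑ s ∈ univ \ B, g s) + ∑ s ∈ B, g s :=
      fun g => (Finset.sum_sdiff (Finset.subset_univ B)).symm
    have hσ : ∀ M0 : Finset M, w * c < M0.card →
        ∃ μ1 ∈ M0, ∃ μ2 ∈ M0, μ1 ≠ μ2 ∧ σ μ1 = σ μ2 := by
      intro M0 hM0
      obtain ⟨j, μn, hμn, hjM, hj, h0, s1, hs1, hs1n⟩ := MixCoreAux.slot1 (Q := Q) a f hf B M0
        (by rw [← hc]; omega) hBQ1 (by omega)
      by_cases hall : ∀ s ∈ B, j s = j s1
      · refine ⟨j s1, hjM s1 hs1, μn, hμn, hs1n, ?_⟩
        have h1 : ∑ s ∈ B, a (f (j s) s) s = σ (j s1) := by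
          refine Finset.sum_congr rfl fun s hs => ?_
          rw [hall s hs]
        have h2 : ∑ s ∈ univ \ B, a (f (j s) s) s = ∑ s ∈ univ \ B, a (f μn s) s := by
          refine Finset.sum_congr rfl fun s hs => ?_
          rw [hj s (Finset.mem_sdiff.1 hs).2]
        have h3 := hf μn
        rw [hsum] at h0 h3
        rw [h1, h2] at h0
        have h4 : σ μn = ∑ s ∈ B, a (f μn s) s := rfl
        rw [← h4] at h3
        exact add_left_cancel (h0.trans h3.symm)
      · exfalso
        push Not at hall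
        obtain ⟨s2, hs2, hs21⟩ := hall
        exact hcon (hfin j μn h0 (MixCoreAux.count2 f hker hdisj B μ0 v hB' j μn hj hs2 hs1 hs21))
    -- few values of `σ`
    have himg : (univ.image σ).card ≤ w * c := by
      by_contra hlt
      push Not at hlt
      have hch : ∀ y ∈ univ.image σ, ∃ μ, σ μ = y := by
        intro y hy
        obtain ⟨μ, _, h⟩ := Finset.mem_image.1 hy
        exact ⟨μ, h⟩
      haveI : Nonempty M := ⟨μ0⟩
      choose! g hg using hch
      have hginj : Set.InjOn g (univ.image σ : Finset (Fin n → ZMod p)) := by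
        intro y hy y' hy' h
        rw [← hg y (Finset.mem_coe.1 hy), ← hg y' (Finset.mem_coe.1 hy'), h]
      have hcard : ((univ.image σ).image g).card = (univ.image σ).card :=
        Finset.card_image_of_injOn hginj
      obtain ⟨μ1, h1, μ2, h2, hne, he⟩ := hσ ((univ.image σ).image g) (by rw [hcard]; exact hlt)
      obtain ⟨y1, hy1, rfl⟩ := Finset.mem_image.1 h1
      obtain ⟨y2, hy2, rfl⟩ := Finset.mem_image.1 h2
      rw [hg y1 hy1, hg y2 hy2] at he
      exact hne (by rw [he])
    -- a large fibre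
    have hfib : ∃ τ ∈ univ.image σ, w * c < (univ.filter fun μ => σ μ = τ).card := by
      refine Finset.exists_lt_card_fiber_of_mul_lt_card_of_maps_to
        (fun μ _ => Finset.mem_image_of_mem σ (Finset.mem_univ μ)) ?_
      rw [Finset.card_univ]
      calc (univ.image σ).card * (w * c) ≤ (w * c) * (w * c) := Nat.mul_le_mul_right _ himg
        _ = (w * c) ^ 2 := (sq _).symm
        _ < Fintype.card M := by omega
    obtain ⟨τ, _, hτ⟩ := hfib
    obtain ⟨μn, hμn⟩ : (univ.filter fun μ => σ μ = τ).Nonempty := by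
      rw [← Finset.card_pos]
      omega
    have hμnτ : σ μn = τ := (Finset.mem_filter.1 hμn).2
    obtain ⟨j, hj, hjτ, s1, hs1, s2, hs2, h12⟩ := MixCoreAux.slot2 (Q := Q) a f B
      (univ.filter fun μ => σ μ = τ) τ (fun μ hμ => (Finset.mem_filter.1 hμ).2)
      (by rw [← hc]; omega) hBQ hB2 μn
    refine hcon (hfin j μn ?_ (MixCoreAux.count2 f hker hdisj B μ0 v hB' j μn hj hs1 hs2 h12))
    have h3 := hf μn
    rw [hsum] at h3 ⊢
    have h2 : ∑ s ∈ univ \ B, a (f (j s) s) s = ∑ s ∈ univ \ B, a (f μn s) s := by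
      refine Finset.sum_congr rfl fun s hs => ?_
      rw [hj s (Finset.mem_sdiff.1 hs).2]
    rw [h2, hjτ, ← hμnτ]
    exact h3

end Pool.Agent.EGZ20
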