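import Pool.Agent.EGZ20.PackStep
import Pool.Agent.EGZ20.Extract

/-!
# Packed solutions with few uncovered indices exist
-/

namespace Pool.Agent.EGZ20

open Finset

namespace PackExAux

lemma packed_mono {p : ℕ} [Fact p.Prime] {n : ℕ} {X S0 S S' : Finset (Fin n → ZMod p)}
    {D N k g ρ m : ℕ} {z : Fin m → Fin n → ZMod p} {z0 : Fin n → ZMod p}
    {P : Finset (Finset (Fin m))} (h : Packed X S0 D N k g ρ m S z z0 P) (hS : S ⊆ S') :
    Packed X S0 D N k g ρ m S' z z0 P :=
  ⟨fun i => hS (h.mem i), hS h.mem0, h.sum, h.ne, h.card, h.disj, h.rich⟩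

lemma packed_const {p : ℕ} [Fact p.Prime] {n : ℕ} {X S0 S : Finset (Fin n → ZMod p)}
    {D N k g ρ m : ℕ} (hp : g * m + ρ = p) {x : Fin n → ZMod p} (hx : x ∈ S) :
    Packed X S0 D N k g ρ m S (fun _ => x) x ∅ := by
  refine ⟨fun _ => hx, hx, ?_, ?_, ?_, ?_, ?_⟩
  · have h1 : g • ∑ _i : Fin m, x + ρ • x = (g * m + ρ) • x := by
      rw [Finset.sum_const, Finset.card_univ, Fintype.card_fin, ← mul_nsmul', ← add_nsmul]
    rw [h1, hp]
    funext j
    rw [Pi.smul_apply, nsmul_eq_mul, ZMod.natCast_self, zero_mul, Pi.zero_apply]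
  · intro J hJ; exact absurd hJ (Finset.notMem_empty J)
  · intro J hJ; exact absurd hJ (Finset.notMem_empty J)
  · intro J hJ; exact absurd hJ (Finset.notMem_empty J)
  · intro J hJ; exact absurd hJ (Finset.notMem_empty J)

end PackExAux

open PackExAux

/-- PROOF. Let `Y = m * (2^2^m * L)`. CLAIM for `β ≤ m`: for every `S' ⊆ S` with `1 + β * Y ≤ |S'|` there
is a packed solution `z, z0, P` in `S'` with `m ≤ e0 + (P.biUnion id).card` or
`β ≤ (P.biUnion id).card`. `β = 0`: `S'` is nonempty, take `z, z0` constant, `P = ∅`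
(`(g m + ρ) • x = p • x = 0`). `β → β+1`: if a packed solution in `S'` with
`m ≤ e0 + card` or `β+1 ≤ card` exists we are done. Otherwise every packed solution in a subset of `S'`
has `card < m - e0` and `card ≤ β`, and by the induction hypothesis and `extract` (`α` = triples
`(z, z0, P)`, `im = univ.image z` (at most `m` elements), `Good` = packed in `S'` and card `= β`,
`N0 = 1 + β Y`, `t = 2^2^m * L`) there are `t` packed solutions in `S'` with `card = β` and pairwise
disjoint images `z`. (In `extract` use `hex` for `S'' ⊆ S'`: a packed solution in `S''` is one in `S'`.)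
Pigeonhole over `P` (`Fintype.card (Finset (Finset (Fin m))) = 2^2^m`): `L` of them have the same `P`.
Then `m - β ≥ e0 + 1` and `packed_step` (for `S'` instead of `S`) gives a packed solution in `S'` with
`card ≥ β + 1`. Apply the claim with `β = m`. -/
theorem packed_exists {p : ℕ} [Fact p.Prime] {n : ℕ} {X S0 S : Finset (Fin n → ZMod p)}
    (hS0 : S0 ⊆ X) (hS : S ⊆ S0) {D N k g ρ m Q Qs L e0 : ℕ} (hp : g * m + ρ = p)
    (hk : 1 ≤ k) (hN : 1 ≤ N) (hS0N : S0.card ≤ N ^ 2)
    (he2 : 2 * k ≤ e0 + 1) (heQ : (p - 1) * k ≤ Q * (e0 + 1))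
    (hQs : 1 ≤ Qs) (hL : 2 * Qs * mixNum (m + 1) k Q n ≤ L)
    (hbad : 2 * (m ^ k * p ^ n * KR D k * N ^ k) ≤ L * Qs ^ (k - 1))
    (hcard : 1 + m * (m * (2 ^ 2 ^ m * L)) ≤ S.card) :
    ∃ (z : Fin m → Fin n → ZMod p) (z0 : Fin n → ZMod p) (P : Finset (Finset (Fin m))),
      Packed X S0 D N k g ρ m S z z0 P ∧ m ≤ e0 + (P.biUnion id).card := by
  classical
  have hmix1 : 1 ≤ mixNum (m + 1) k Q n := by unfold mixNum; omega
  have hL1 : 1 ≤ L := by
    have h1 : 1 ≤ 2 * Qs * mixNum (m + 1) k Q n :=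
      Nat.one_le_iff_ne_zero.2 (Nat.mul_ne_zero (by omega) (by omega))
    omega
  set Y : ℕ := m * (2 ^ 2 ^ m * L) with hY
  have claim : ∀ β, β ≤ m → ∀ S' : Finset (Fin n → ZMod p), S' ⊆ S → 1 + β * Y ≤ S'.card →
      ∃ (z : Fin m → Fin n → ZMod p) (z0 : Fin n → ZMod p) (P : Finset (Finset (Fin m))),
        Packed X S0 D N k g ρ m S' z z0 P ∧
          (m ≤ e0 + (P.biUnion id).card ∨ β ≤ (P.biUnion id).card) := by
    intro β
    induction β with
    | zero =>
      intro _ S' _ hc
      obtain ⟨x, hx⟩ := Finset.card_pos.1 (show 0 < S'.card by omega)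
      exact ⟨fun _ => x, x, ∅, packed_const hp hx, Or.inr (Nat.zero_le _)⟩
    | succ β ih =>
      intro hβ S' hS' hc
      by_contra hcon
      push Not at hcon
      have hex : ∀ S'' ⊆ S', 1 + β * Y ≤ S''.card →
          ∃ a : (Fin m → Fin n → ZMod p) × (Fin n → ZMod p) × Finset (Finset (Fin m)),
            (Packed X S0 D N k g ρ m S' a.1 a.2.1 a.2.2 ∧ (a.2.2.biUnion id).card = β) ∧
              univ.image a.1 ⊆ S'' := by
        intro S'' hS'' hc''
        obtain ⟨z, z0, P, h1, h2⟩ := ih (by omega) S'' (hS''.trans hS') hc''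
        have h3 := hcon z z0 P (packed_mono h1 hS'')
        refine ⟨(z, z0, P), ⟨packed_mono h1 hS'', ?_⟩, ?_⟩
        · change (P.biUnion id).card = β
          omega
        · intro x hx
          obtain ⟨i, -, rfl⟩ := Finset.mem_image.1 hx
          exact h1.mem i
      have hcard' : (1 + β * Y) + m * (2 ^ 2 ^ m * L) ≤ S'.card := by
        have h1 : (1 + β * Y) + m * (2 ^ 2 ^ m * L) = 1 + (β + 1) * Y := by rw [hY]; ring
        rw [h1]
        exact hc
      obtain ⟨f, hf1, hf2⟩ := extract
        (fun a : (Fin m → Fin n → ZMod p) × (Fin n → ZMod p) × Finset (Finset (Fin m)) =>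
          univ.image a.1)
        (fun a => Packed X S0 D N k g ρ m S' a.1 a.2.1 a.2.2 ∧ (a.2.2.biUnion id).card = β)
        m (1 + β * Y) S' hex
        (fun a => Finset.card_image_le.trans (by rw [Finset.card_univ, Fintype.card_fin]))
        (2 ^ 2 ^ m * L) hcard'
      obtain ⟨P, -, hPc⟩ := Finset.exists_le_card_fiber_of_mul_le_card_of_maps_to
        (s := (Finset.univ : Finset (Fin (2 ^ 2 ^ m * L))))
        (t := (Finset.univ : Finset (Finset (Finset (Fin m))))) (f := fun i => (f i).2.2) (n := L)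
        (fun i _ => Finset.mem_univ _) Finset.univ_nonempty (by
          rw [Finset.card_univ, Finset.card_univ, Fintype.card_fin, Fintype.card_finset,
            Fintype.card_finset, Fintype.card_fin])
      have hVc : L ≤ Fintype.card {i : Fin (2 ^ 2 ^ m * L) // (f i).2.2 = P} := by
        rw [Fintype.card_subtype]
        exact hPc
      have hV0 : ∀ v : {i : Fin (2 ^ 2 ^ m * L) // (f i).2.2 = P},
          Packed X S0 D N k g ρ m S' (f v).1 (f v).2.1 P := by
        intro v
        have h1 := (hf1 v).1.1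
        rw [v.2] at h1
        exact h1
      have hPβ : (P.biUnion id).card = β := by
        obtain ⟨v⟩ := Fintype.card_pos_iff.1 (show 0 < Fintype.card
          {i : Fin (2 ^ 2 ^ m * L) // (f i).2.2 = P} by omega)
        have h1 := (hf1 v).1.2
        rw [v.2] at h1
        exact h1
      have hnot : e0 + β < m := by
        obtain ⟨v⟩ := Fintype.card_pos_iff.1 (show 0 < Fintype.card
          {i : Fin (2 ^ 2 ^ m * L) // (f i).2.2 = P} by omega)
        have h1 := (hcon _ _ P (hV0 v)).1
        rw [hPβ] at h1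
        exact h1
      obtain ⟨z', z0', P', h1, h2⟩ := packed_step (Q := Q) (Qs := Qs) hS0 (hS'.trans hS) hk hN hS0N
        (fun v : {i : Fin (2 ^ 2 ^ m * L) // (f i).2.2 = P} => (f v).1)
        (fun v => (f v).2.1) P hV0
        (by
          intro v v' hne i j he
          have h1 := hf2 v v' (fun h => hne (Subtype.ext h))
          rw [Finset.disjoint_left] at h1
          exact h1 (Finset.mem_image_of_mem _ (Finset.mem_univ i))
            (he ▸ Finset.mem_image_of_mem _ (Finset.mem_univ j)))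
        (by rw [hPβ]; omega)
        (by
          rw [hPβ]
          exact heQ.trans (Nat.mul_le_mul_left _ (by omega)))
        hQs (hL.trans hVc) (hbad.trans (Nat.mul_le_mul_right _ hVc))
      have h3 := (hcon z' z0' P' h1).2
      rw [hPβ] at h2
      omega
  obtain ⟨z, z0, P, h1, h2⟩ := claim m le_rfl S subset_rfl hcard
  exact ⟨z, z0, P, h1, by omega⟩

end Pool.Agent.EGZ20
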