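import Pool.Agent.EGZ20.Defs

/-!
# Counting tuples without rich subsums
-/

set_option linter.unusedSectionVars false

namespace Pool.Agent.EGZ20

open Finset

variable {G : Type*} [AddCommGroup G] [DecidableEq G]

/-- PROOF. Suppose `B.card > KR D k * N^k`. For `T ⊆ Fin k` and `y0 ∈ B` let
`B(T,y0) = {y ∈ B | y = y0 on T}`. Choose `T` of maximal cardinality such that for some `y0 ∈ B`
`|B(T,y0)| > KR D j * N^j`, `j = k - |T|` (`T = ∅` works). `T ≠ univ` because `|B(univ,y0)| = 1`.
Let `J = Tᶜ`, `j = |J| ≥ 1`, `w' = ∑_J y` (the same for all `y ∈ B(T,y0)`).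
Case `j = 1`: then `|B(T,y0)| ≤ 1` (all sums equal), contradiction with `KR D 1 * N^1 = N ≥ 1`.
Case `j ≥ 2`: fix `u ∈ J`. For `a ∈ S` let `B_a = {y ∈ B(T,y0) | y u = a}`; by maximality
`|B_a| ≤ KR D (j-1) * N^(j-1)` and for `u' ∈ J \ {u}`, `b`,
`|{y ∈ B_a | y u' = b}| ≤ KR D (j-2) * N^(j-2)` (these sets are empty or of the form `B(T',y1)`).
If `¬ Flex X D (j-1) (w' - a)`, there is `U`, `|U| ≤ D`, such that no `Z ⊆ X \ U` with `|Z| = j-1` has
sum `w' - a`; for `y ∈ B_a` the set `Z = y(J \ {u}) ⊆ S ⊆ X` (`j-1` distinct elements) has sum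
`w' - a`, so it meets `U`: `|B_a| ≤ (j-1) D (KR D (j-2)) N^(j-2)`. The `a ∈ S` with
`Flex X D (j-1) (w' - a)` are the helpers: fewer than `N` of them since `w'` is not `j`-rich (`hbad`
for `y0`, `J`). Hence
`|B(T,y0)| ≤ N * KR D (j-1) N^(j-1) + |S| (j-1) D KR D (j-2) N^(j-2)
  ≤ (KR D (j-1) + (j-1) D KR D (j-2)) N^j = KR D j * N^j`, a contradiction. -/
theorem rich_count {X S : Finset G} (hSX : S ⊆ X) (D N k : ℕ) (hN : 1 ≤ N)
    (hS : S.card ≤ N ^ 2) (w : G) (B : Finset (Fin k → G))
    (hmem : ∀ y ∈ B, ∀ i, y i ∈ S) (hinj : ∀ y ∈ B, Function.Injective y)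
    (hsum : ∀ y ∈ B, ∑ i, y i = w)
    (hbad : ∀ y ∈ B, ∀ J : Finset (Fin k), J.Nonempty → ¬ Rich X S D N J.card (∑ i ∈ J, y i)) :
    B.card ≤ KR D k * N ^ k := by
  classical
  have hsumJ : ∀ (J : Finset (Fin k)) (y0 : Fin k → G), ∀ y ∈ B, ∀ y' ∈ B,
      (∀ i, i ∉ J → y i = y0 i) → (∀ i, i ∉ J → y' i = y0 i) →
      ∑ i ∈ J, y i = ∑ i ∈ J, y' i := by
    intro J y0 y hy y' hy' h1 h2
    have e1 := Finset.sum_add_sum_compl J y
    have e2 := Finset.sum_add_sum_compl J y'
    have e3 : ∑ i ∈ Jᶜ, y i = ∑ i ∈ Jᶜ, y' i := by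
      refine sum_congr rfl fun i hi => ?_
      rw [h1 i (mem_compl.1 hi), h2 i (mem_compl.1 hi)]
    rw [hsum y hy] at e1
    rw [hsum y' hy', ← e3] at e2
    exact add_right_cancel (e1.trans e2.symm)
  have hP : ∀ j : ℕ, ∀ J : Finset (Fin k), J.card = j → ∀ y0 : Fin k → G,
      (B.filter (fun y => ∀ i, i ∉ J → y i = y0 i)).card ≤ KR D j * N ^ j := by
    intro j
    induction j using Nat.strong_induction_on with
    | _ j ih =>
    intro J hJ y0
    rcases j with _ | _ | j
    · -- `J` is empty
      rw [card_eq_zero] at hJ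
      subst hJ
      have h1 : KR D 0 * N ^ 0 = 1 := by simp [KR]
      rw [h1]
      refine card_le_one.2 fun y hy y' hy' => funext fun i => ?_
      rw [(mem_filter.1 hy).2 i (notMem_empty i), (mem_filter.1 hy').2 i (notMem_empty i)]
    · -- one element
      have h1 : KR D (0 + 1) * N ^ (0 + 1) = N := by simp [KR]
      rw [h1]
      refine le_trans (card_le_one.2 fun y hy y' hy' => funext fun i => ?_) hN
      obtain ⟨hy1, hy2⟩ := mem_filter.1 hy
      obtain ⟨hy1', hy2'⟩ := mem_filter.1 hy'
      obtain ⟨u, rfl⟩ := card_eq_one.1 hJ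
      by_cases hi : i = u
      · have h2 := hsumJ {u} y0 y hy1 y' hy1' hy2 hy2'
        rw [sum_singleton, sum_singleton] at h2
        rw [hi, h2]
      · have hi' : i ∉ ({u} : Finset (Fin k)) := by
          rw [mem_singleton]
          exact hi
        rw [hy2 i hi', hy2' i hi']
    · -- at least two elements
      set C := B.filter (fun y => ∀ i, i ∉ J → y i = y0 i) with hC
      rcases C.eq_empty_or_nonempty with hCe | ⟨y1, hy1⟩
      · rw [hCe, card_empty]
        exact Nat.zero_le _
      obtain ⟨hy1B, hy1J⟩ := mem_filter.1 hy1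
      set w' := ∑ i ∈ J, y1 i with hw'
      have hCw : ∀ y ∈ C, ∑ i ∈ J, y i = w' := fun y hy =>
        hsumJ J y0 y (mem_filter.1 hy).1 y1 hy1B (mem_filter.1 hy).2 hy1J
      have hJne : J.Nonempty := card_pos.1 (by omega)
      obtain ⟨u, hu⟩ := hJne
      have hJu : (J.erase u).card = j + 1 := by
        rw [card_erase_of_mem hu, hJ]
        rfl
      -- fibres over the value at `u`
      have hfib : C.card = ∑ a ∈ S, (C.filter (fun y => y u = a)).card :=
        card_eq_sum_card_fiberwise fun y hy => hmem y (mem_filter.1 hy).1 u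
      have hb1 : ∀ a, (C.filter (fun y => y u = a)).card ≤ KR D (j + 1) * N ^ (j + 1) := by
        intro a
        refine le_trans (card_le_card ?_) (ih (j + 1) (by omega) (J.erase u) hJu
          (Function.update y0 u a))
        intro y hy
        obtain ⟨h1, h2⟩ := mem_filter.1 hy
        obtain ⟨h3, h4⟩ := mem_filter.1 h1
        refine mem_filter.2 ⟨h3, fun i hi => ?_⟩
        by_cases hiu : i = u
        · rw [hiu, Function.update_self, h2]
        · rw [Function.update_of_ne hiu]
          exact h4 i fun hiJ => hi (mem_erase.2 ⟨hiu, hiJ⟩)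
      have hb2 : ∀ a, ∀ u' ∈ J.erase u, ∀ b,
          (C.filter (fun y => y u = a ∧ y u' = b)).card ≤ KR D j * N ^ j := by
        intro a u' hu' b
        have hJuu : ((J.erase u).erase u').card = j := by
          rw [card_erase_of_mem hu', hJu]
          rfl
        refine le_trans (card_le_card ?_) (ih j (by omega) ((J.erase u).erase u') hJuu
          (Function.update (Function.update y0 u a) u' b))
        intro y hy
        obtain ⟨h1, h2⟩ := mem_filter.1 hy
        obtain ⟨h3, h4⟩ := mem_filter.1 h1
        refine mem_filter.2 ⟨h3, fun i hi => ?_⟩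
        by_cases hiu' : i = u'
        · rw [hiu', Function.update_self, h2.2]
        · rw [Function.update_of_ne hiu']
          by_cases hiu : i = u
          · rw [hiu, Function.update_self, h2.1]
          · rw [Function.update_of_ne hiu]
            exact h4 i fun hiJ => hi (mem_erase.2 ⟨hiu', mem_erase.2 ⟨hiu, hiJ⟩⟩)
      have hb3 : ∀ a ∈ S, a ∉ helpers X S D (j + 2) w' →
          (C.filter (fun y => y u = a)).card ≤ (j + 1) * D * (KR D j * N ^ j) := by
        intro a ha hna
        rw [mem_helpers, not_and] at hna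
        have hflex := hna ha
        have hj1 : j + 2 - 1 = j + 1 := rfl
        rw [hj1] at hflex
        unfold Flex at hflex
        push Not at hflex
        obtain ⟨U, hU, hUZ⟩ := hflex
        have hsub : C.filter (fun y => y u = a) ⊆
            (J.erase u).biUnion fun u' => U.biUnion fun b =>
              C.filter (fun y => y u = a ∧ y u' = b) := by
          intro y hy
          obtain ⟨hyC, hyu⟩ := mem_filter.1 hy
          obtain ⟨hyB, hyJ⟩ := mem_filter.1 hyC
          have hZ := hUZ ((J.erase u).image y) (by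
            intro x hx
            obtain ⟨i, -, rfl⟩ := mem_image.1 hx
            exact hSX (hmem y hyB i))
          by_cases hd : Disjoint ((J.erase u).image y) U
          · exfalso
            refine hZ hd ?_ ?_
            · rw [card_image_of_injective _ (hinj y hyB), hJu]
            · rw [sum_image fun i _ i' _ h => hinj y hyB h]
              have h5 := add_sum_erase J y hu
              rw [hCw y hyC, hyu] at h5
              rw [← h5]
              abel
          · rw [not_disjoint_iff] at hd
            obtain ⟨b, hb1, hb2⟩ := hd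
            obtain ⟨u', hu', rfl⟩ := mem_image.1 hb1
            exact mem_biUnion.2 ⟨u', hu', mem_biUnion.2 ⟨_, hb2,
              mem_filter.2 ⟨hyC, hyu, rfl⟩⟩⟩
        calc (C.filter (fun y => y u = a)).card ≤ _ := card_le_card hsub
          _ ≤ (J.erase u).card * (D * (KR D j * N ^ j)) := by
              refine card_biUnion_le_card_mul _ _ _ fun u' hu' => ?_
              refine (card_biUnion_le_card_mul _ _ _ fun b _ => hb2 a u' hu' b).trans ?_
              exact Nat.mul_le_mul_right _ hU
          _ = (j + 1) * D * (KR D j * N ^ j) := by rw [hJu, mul_assoc]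
      have hhelp : (helpers X S D (j + 2) w').card ≤ N := by
        have h1 := hbad y1 hy1B J ⟨u, hu⟩
        rw [hJ] at h1
        unfold Rich at h1
        exact (not_le.1 h1).le
      rw [hfib]
      calc ∑ a ∈ S, (C.filter (fun y => y u = a)).card
          ≤ ∑ a ∈ S, ((if a ∈ helpers X S D (j + 2) w' then KR D (j + 1) * N ^ (j + 1) else 0) +
              (j + 1) * D * (KR D j * N ^ j)) := by
            refine sum_le_sum fun a ha => ?_
            by_cases h1 : a ∈ helpers X S D (j + 2) w'
            · rw [if_pos h1]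
              exact (hb1 a).trans (Nat.le_add_right _ _)
            · rw [if_neg h1, zero_add]
              exact hb3 a ha h1
        _ = (helpers X S D (j + 2) w').card * (KR D (j + 1) * N ^ (j + 1)) +
              S.card * ((j + 1) * D * (KR D j * N ^ j)) := by
            rw [sum_add_distrib, ← sum_filter, sum_const, sum_const, smul_eq_mul, smul_eq_mul]
            congr 3
            ext a
            rw [mem_filter]
            exact ⟨fun h => h.2, fun h => ⟨helpers_subset _ _ _ _ _ h, h⟩⟩
        _ ≤ N * (KR D (j + 1) * N ^ (j + 1)) + N ^ 2 * ((j + 1) * D * (KR D j * N ^ j)) :=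
            Nat.add_le_add (Nat.mul_le_mul_right _ hhelp) (Nat.mul_le_mul_right _ hS)
        _ = KR D (j + 1 + 1) * N ^ (j + 1 + 1) := by
            have h1 : KR D (j + 1 + 1) = KR D (j + 1) + (j + 1) * D * KR D j := rfl
            rw [h1]
            ring
  have h1 := hP k univ (by rw [card_univ, Fintype.card_fin]) (fun _ => w)
  rwa [filter_true_of_mem fun y _ i hi => absurd (mem_univ i) hi] at h1

end Pool.Agent.EGZ20
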