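import Mathlib

/-!
# Sampling
-/

namespace Pool.Agent.EGZ20

open Finset

namespace SampleAux

lemma card_fix {V : Type*} [Fintype V] [DecidableEq V] (k Q : ℕ) (y : Fin k → V)
    (hy : Function.Injective y) (q : Fin Q) :
    (univ.filter fun φ : V → Fin Q => ∀ i, φ (y i) = q).card * Q ^ k = Q ^ Fintype.card V := by
  classical
  have h1 : (univ.filter fun φ : V → Fin Q => ∀ i, φ (y i) = q) =
      Fintype.piFinset fun v : V => if v ∈ univ.image y then {q} else (univ : Finset (Fin Q)) := by
    ext φ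
    rw [mem_filter, Fintype.mem_piFinset]
    constructor
    · rintro ⟨_, h⟩ v
      by_cases hv : v ∈ univ.image y
      · rw [if_pos hv]
        obtain ⟨i, _, rfl⟩ := mem_image.1 hv
        exact mem_singleton.2 (h i)
      · rw [if_neg hv]
        exact mem_univ _
    · intro h
      refine ⟨mem_univ _, fun i => ?_⟩
      have h2 := h (y i)
      rw [if_pos (mem_image_of_mem y (mem_univ i))] at h2
      exact mem_singleton.1 h2
  have h2 : ∀ v : V, (if v ∈ univ.image y then {q} else (univ : Finset (Fin Q))).card =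
      if v ∈ univ.image y then 1 else Q := by
    intro v
    split_ifs
    · exact card_singleton q
    · rw [card_univ, Fintype.card_fin]
  rw [h1, Fintype.card_piFinset, prod_congr rfl fun v _ => h2 v, prod_ite, prod_const_one, one_mul,
    prod_const, ← pow_add]
  congr 1
  have h3 : (univ.image y).card = k := by
    rw [card_image_of_injective _ hy, card_univ, Fintype.card_fin]
  have h4 := card_filter_add_card_filter_not (s := (univ : Finset V)) (fun v => v ∈ univ.image y)
  have h5 : (univ.filter fun v => v ∈ univ.image y) = univ.image y := by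
    ext v
    simp
  rw [h5, h3, card_univ] at h4
  omega

lemma sum_class {V : Type*} [Fintype V] [DecidableEq V] (Q : ℕ) :
    ∑ p : (V → Fin Q) × Fin Q, (univ.filter fun v => p.1 v = p.2).card =
      Fintype.card V * Q ^ Fintype.card V := by
  classical
  rw [Fintype.sum_prod_type]
  have h1 : ∀ φ : V → Fin Q, ∑ q : Fin Q, (univ.filter fun v => φ v = q).card = Fintype.card V := by
    intro φ
    rw [← card_univ (α := V)]
    exact (card_eq_sum_card_fiberwise (f := φ) (s := univ) (t := univ)
      fun v _ => mem_coe.2 (mem_univ _)).symm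
  simp only [h1, sum_const, card_univ, Fintype.card_fun, Fintype.card_fin, smul_eq_mul]
  exact mul_comm _ _

lemma sum_bad {V : Type*} [Fintype V] [DecidableEq V] (k Q : ℕ) (B : Finset (Fin k → V))
    (hinj : ∀ y ∈ B, Function.Injective y) :
    (∑ p : (V → Fin Q) × Fin Q, (B.filter fun y => ∀ i, p.1 (y i) = p.2).card) * Q ^ k =
      B.card * Q * Q ^ Fintype.card V := by
  classical
  rw [Fintype.sum_prod_type_right]
  have h1 : ∀ q : Fin Q, (∑ φ : V → Fin Q, (B.filter fun y => ∀ i, φ (y i) = q).card) * Q ^ k =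
      B.card * Q ^ Fintype.card V := by
    intro q
    have h2 : ∑ φ : V → Fin Q, (B.filter fun y => ∀ i, φ (y i) = q).card =
        ∑ y ∈ B, (univ.filter fun φ : V → Fin Q => ∀ i, φ (y i) = q).card := by
      simp only [card_filter]
      exact sum_comm
    rw [h2, sum_mul, sum_congr rfl fun y hy => card_fix k Q y (hinj y hy) q, sum_const,
      smul_eq_mul]
  rw [sum_mul, sum_congr rfl fun q _ => h1 q, sum_const, card_univ, Fintype.card_fin, smul_eq_mul]
  ring

end SampleAux

open SampleAux in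
/-- Sampling. PROOF. Consider all `φ : V → Fin Q` and all colours `q`; for an injective `y` the number
of `φ` with `φ (y i) = q` for all `i` is `Q^(|V|-k)` (`Fintype.card_piFinset`; if `k > |V|` then `B` is
empty). Hence `∑_φ ∑_q (|φ⁻¹(q)| - #{y ∈ B : ∀ i, φ (y i) = q}) = Q^|V| |V| - |B| Q^(|V|-k+1)
≥ Q^|V| |V| / 2`, so for some `(φ,q)` the class has `|φ⁻¹(q)| - #bad ≥ |V|/(2Q)` (average over `Q^|V| Q`
pairs). Let `W` be the class minus all `y 0`, `y` bad in the class. (Work with a multiplied-out
inequality, in `ℤ` or `ℚ`.) -/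
theorem sample {V : Type*} [Fintype V] [DecidableEq V] (k Q : ℕ) (hk : 1 ≤ k) (hQ : 1 ≤ Q)
    (B : Finset (Fin k → V)) (hinj : ∀ y ∈ B, Function.Injective y)
    (hB : 2 * B.card ≤ Fintype.card V * Q ^ (k - 1)) :
    ∃ W : Finset V, Fintype.card V ≤ 2 * Q * W.card ∧ ∀ y ∈ B, ∃ i, y i ∉ W := by
  classical
  set n := Fintype.card V with hn
  obtain ⟨⟨φ, q⟩, hpq⟩ : ∃ p : (V → Fin Q) × Fin Q,
      n + 2 * Q * (B.filter fun y => ∀ i, p.1 (y i) = p.2).card ≤
        2 * Q * (univ.filter fun v => p.1 v = p.2).card := by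
    by_contra hno
    push Not at hno
    have hne : (univ : Finset ((V → Fin Q) × Fin Q)).Nonempty :=
      ⟨(fun _ => ⟨0, hQ⟩, ⟨0, hQ⟩), mem_univ _⟩
    have h1 := sum_lt_sum_of_nonempty hne fun p _ => hno p
    rw [sum_add_distrib, ← mul_sum, ← mul_sum, sum_class, sum_const, card_univ, Fintype.card_prod,
      Fintype.card_fun, Fintype.card_fin, smul_eq_mul, ← hn] at h1
    have h2 := sum_bad k Q B hinj
    rw [← hn] at h2
    set S := ∑ p : (V → Fin Q) × Fin Q, (B.filter fun y => ∀ i, p.1 (y i) = p.2).card with hS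
    have hQk : 0 < Q ^ k := Nat.pow_pos hQ
    have hkk : Q ^ k = Q ^ (k - 1) * Q := by
      rw [← pow_succ]
      congr 1
      omega
    have h3 : 2 * S ≤ n * Q ^ n := by
      refine Nat.le_of_mul_le_mul_right ?_ hQk
      calc 2 * S * Q ^ k = 2 * B.card * (Q * Q ^ n) := by rw [mul_assoc, h2]; ring
        _ ≤ n * Q ^ (k - 1) * (Q * Q ^ n) := Nat.mul_le_mul_right _ hB
        _ = n * Q ^ n * Q ^ k := by rw [hkk]; ring
    have h4 : 2 * Q * S ≤ Q * (n * Q ^ n) := by
      calc 2 * Q * S = Q * (2 * S) := by ring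
        _ ≤ Q * (n * Q ^ n) := Nat.mul_le_mul_left _ h3
    have h5 : 2 * Q * (n * Q ^ n) = Q ^ n * Q * n + Q * (n * Q ^ n) := by ring
    omega
  have hbound : ((B.filter fun y => ∀ i, φ (y i) = q).image fun y => y ⟨0, hk⟩).card ≤
      (B.filter fun y => ∀ i, φ (y i) = q).card := card_image_le
  refine ⟨(univ.filter fun v => φ v = q) \
    ((B.filter fun y => ∀ i, φ (y i) = q).image fun y => y ⟨0, hk⟩), ?_, ?_⟩
  · have h1 := le_card_sdiff ((B.filter fun y => ∀ i, φ (y i) = q).image fun y => y ⟨0, hk⟩)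
      (univ.filter fun v => φ v = q)
    set W := (univ.filter fun v => φ v = q) \
      ((B.filter fun y => ∀ i, φ (y i) = q).image fun y => y ⟨0, hk⟩) with hW
    have h2 : (univ.filter fun v => φ v = q).card ≤
        W.card + (B.filter fun y => ∀ i, φ (y i) = q).card := by omega
    have h3 := Nat.mul_le_mul_left (2 * Q) h2
    rw [mul_add] at h3
    have h4 : n + 2 * Q * (B.filter fun y => ∀ i, φ (y i) = q).card ≤
        2 * Q * (univ.filter fun v => φ v = q).card := hpq
    omega
  · intro y hy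
    by_contra hno
    push Not at hno
    have h1 : ∀ i, φ (y i) = q := fun i => (mem_filter.1 (mem_sdiff.1 (hno i)).1).2
    exact (mem_sdiff.1 (hno ⟨0, hk⟩)).2 (mem_image.2 ⟨y, mem_filter.2 ⟨hy, h1⟩, rfl⟩)

end Pool.Agent.EGZ20
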