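import Pool.Agent.EGZ20.Mix
import Pool.Agent.EGZ20.Sample
import Pool.Agent.EGZ20.RichCount

/-!
# Enlarging a packed solution
-/

namespace Pool.Agent.EGZ20

open Finset

namespace PackStepAux

lemma mixNum_mono {w w' : ℕ} (h : w ≤ w') (k Q n : ℕ) : mixNum w k Q n ≤ mixNum w' k Q n := by
  unfold mixNum
  have h2 : (2 : ℕ) ^ (w ^ 2) ≤ 2 ^ (w' ^ 2) :=
    Nat.pow_le_pow_right (by norm_num) (Nat.pow_le_pow_left h 2)
  have h3 : (w * (4 * (Q + 1)) ^ n) ^ 2 ≤ (w' * (4 * (Q + 1)) ^ n) ^ 2 :=
    Nat.pow_le_pow_left (Nat.mul_le_mul_right _ h) 2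
  exact Nat.add_le_add_left (Nat.mul_le_mul_left _ (Nat.mul_le_mul (Nat.mul_le_mul h h2)
    (Nat.add_le_add_right h3 1))) 1

/-- the number of bad injective tuples -/
lemma bad_card {p : ℕ} [Fact p.Prime] {n : ℕ} {X S0 S : Finset (Fin n → ZMod p)}
    (hS0 : S0 ⊆ X) (hS : S ⊆ S0) {D N k m : ℕ} (hN : 1 ≤ N)
    (hS0N : S0.card ≤ N ^ 2) {V : Type} [Fintype V] [DecidableEq V]
    (z : V → Fin m → Fin n → ZMod p) (hmem : ∀ v i, z v i ∈ S)
    (hdisj : ∀ v v', v ≠ v' → ∀ i j, z v i ≠ z v' j)
    (B : Finset (Fin k → V))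
    (hB : ∀ y ∈ B, Function.Injective y ∧ ∃ s : Fin k → Fin m, ∀ J : Finset (Fin k), J.Nonempty →
      ¬ Rich X S0 D N J.card (∑ i ∈ J, z (y i) (s i))) :
    B.card ≤ m ^ k * p ^ n * KR D k * N ^ k := by
  classical
  set F : (Fin k → Fin m) × (Fin n → ZMod p) → Finset (Fin k → V) := fun q =>
    B.filter fun y => (∀ J : Finset (Fin k), J.Nonempty →
      ¬ Rich X S0 D N J.card (∑ i ∈ J, z (y i) (q.1 i))) ∧ ∑ i, z (y i) (q.1 i) = q.2 with hF
  have h1 : B ⊆ (Finset.univ : Finset ((Fin k → Fin m) × (Fin n → ZMod p))).biUnion F := by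
    intro y hy
    obtain ⟨-, s, hs⟩ := hB y hy
    exact Finset.mem_biUnion.2 ⟨(s, ∑ i, z (y i) (s i)), Finset.mem_univ _,
      Finset.mem_filter.2 ⟨hy, hs, rfl⟩⟩
  have h2 : ∀ q, (F q).card ≤ KR D k * N ^ k := by
    rintro ⟨s, w⟩
    have hinjz : ∀ v v' i j, z v i = z v' j → v = v' := by
      intro v v' i j he
      by_contra hne
      exact hdisj v v' hne i j he
    have h3 : ((F (s, w)).image fun y => fun i => z (y i) (s i)).card = (F (s, w)).card := by
      apply Finset.card_image_of_injective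
      intro y y' hyy
      funext i
      exact hinjz _ _ _ _ (congrFun hyy i)
    rw [← h3]
    refine rich_count hS0 D N k hN hS0N w _ ?_ ?_ ?_ ?_
    · intro x hx i
      obtain ⟨y, -, rfl⟩ := Finset.mem_image.1 hx
      exact hS (hmem _ _)
    · intro x hx
      obtain ⟨y, hy, rfl⟩ := Finset.mem_image.1 hx
      intro i j hij
      exact (hB y (Finset.mem_filter.1 hy).1).1 (hinjz _ _ _ _ hij)
    · intro x hx
      obtain ⟨y, hy, rfl⟩ := Finset.mem_image.1 hx
      exact (Finset.mem_filter.1 hy).2.2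
    · intro x hx
      obtain ⟨y, hy, rfl⟩ := Finset.mem_image.1 hx
      exact (Finset.mem_filter.1 hy).2.1
  calc B.card ≤ _ := Finset.card_le_card h1
    _ ≤ ∑ q : (Fin k → Fin m) × (Fin n → ZMod p), (F q).card := Finset.card_biUnion_le
    _ ≤ ∑ _q : (Fin k → Fin m) × (Fin n → ZMod p), KR D k * N ^ k :=
        Finset.sum_le_sum fun q _ => h2 q
    _ = m ^ k * p ^ n * KR D k * N ^ k := by
        rw [Finset.sum_const, Finset.card_univ, Fintype.card_prod, Fintype.card_fun,
          Fintype.card_fun, Fintype.card_fin, Fintype.card_fin, Fintype.card_fin, ZMod.card,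
          smul_eq_mul]
        ring

/-- `k` indices with different values -/
lemma choose_inj {E W : Type} [Fintype E] [DecidableEq W] (ι : Option E → W) (k : ℕ)
    (h : k + 1 ≤ (univ.image ι).card) : ∃ s : Fin k → E, Function.Injective fun i => ι (some (s i)) := by
  classical
  have h1 : univ.image ι ⊆ insert (ι none) (univ.image fun e : E => ι (some e)) := by
    intro w hw
    obtain ⟨o, -, rfl⟩ := Finset.mem_image.1 hw
    cases o with
    | none => exact Finset.mem_insert_self _ _
    | some e => exact Finset.mem_insert_of_mem (Finset.mem_image_of_mem _ (Finset.mem_univ e))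
  have h2 := Finset.card_le_card h1
  have h3 := Finset.card_insert_le (ι none) (univ.image fun e : E => ι (some e))
  obtain ⟨T, hT, hTc⟩ := Finset.exists_subset_card_eq
    (show k ≤ (univ.image fun e : E => ι (some e)).card by omega)
  have e := (Finset.equivFinOfCardEq hTc).symm
  have hex : ∀ i : Fin k, ∃ x : E, ι (some x) = (e i : W) := by
    intro i
    obtain ⟨x, -, hx⟩ := Finset.mem_image.1 (hT (e i).2)
    exact ⟨x, hx⟩
  choose s hs using hex
  refine ⟨s, fun i j hij => ?_⟩
  simp only [hs] at hij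
  exact e.injective (Subtype.ext hij)

end PackStepAux

open PackStepAux

/-- One step: from many disjoint packed solutions with the same `P` to one with a larger `P`.

PROOF. Let `E = (P.biUnion id)ᶜ` (uncovered indices, `|E| = m - (P.biUnion id).card`).
(1) Let `Bad` be the set of injective `y : Fin k → V` for which there is `s : Fin k → Fin m` such that
the tuple `x i = z (y i) (s i)` has no rich subsum (`∀ J ≠ ∅, ¬ Rich X S0 D N J.card (∑_{i∈J} x i)`).
For fixed `s` and fixed sum `w`, `y ↦ x` is injective (by `hdisj`), `x` is injective with values in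
`S ⊆ S0`, so `rich_count` gives at most `KR D k * N^k` such `y`. So
`|Bad| ≤ m^k * p^n * KR D k * N^k` (`card (Fin n → ZMod p) = p^n`), and `sample` with `Q := Qs` gives
`W : Finset V` with `card V ≤ 2 Qs |W|`, hence `mixNum (m+1) k Q n ≤ |W|` (from `hV`, `hQs`), and no
`y ∈ Bad` has all values in `W`.
(2) Apply `mix` with `Ω = Option E`, `V = W` (subtype), `o = none`,
`a v (some s) = g • z v s`, `a v none = g • ∑_{s ∉ E} z v s + ρ • z0 v` (sum 0 by `(hP v).sum`);
`card Ω = |E| + 1 ≤ m + 1` (`mixNum` is monotone in its first argument). We get `ι : Option E → W` with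
sum 0 and at least `k+1` values; so `ι` takes at least `k` values on `E`: choose `s : Fin k → E`
such that `ι ∘ s` is injective (then `s` is injective).
(3) Define `z' i = z (ι i) i` for `i ∈ E`, `z' i = z (ι none) i` for `i ∉ E`, `z0' = z0 (ι none)`. This
is a solution with values in `S`. The tuple `y = ι ∘ s` is not in `Bad`, so there is `J0 ≠ ∅` with
`∑_{i ∈ J0} z (ι (s i)) (s i)` rich of size `|J0|`; put `J = s(J0) ⊆ E`, `P' = insert J P`. -/
theorem packed_step {p : ℕ} [Fact p.Prime] {n : ℕ} {X S0 S : Finset (Fin n → ZMod p)}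
    (hS0 : S0 ⊆ X) (hS : S ⊆ S0) {D N k g ρ m Q Qs : ℕ} (hk : 1 ≤ k) (hN : 1 ≤ N)
    (hS0N : S0.card ≤ N ^ 2) {V : Type} [Fintype V] [DecidableEq V]
    (z : V → Fin m → Fin n → ZMod p) (z0 : V → Fin n → ZMod p) (P : Finset (Finset (Fin m)))
    (hP : ∀ v, Packed X S0 D N k g ρ m S (z v) (z0 v) P)
    (hdisj : ∀ v v', v ≠ v' → ∀ i j, z v i ≠ z v' j)
    (hE2 : 2 * k ≤ m - (P.biUnion id).card)
    (hEQ : (p - 1) * k ≤ Q * (m - (P.biUnion id).card))
    (hQs : 1 ≤ Qs) (hV : 2 * Qs * mixNum (m + 1) k Q n ≤ Fintype.card V)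
    (hbad : 2 * (m ^ k * p ^ n * KR D k * N ^ k) ≤ Fintype.card V * Qs ^ (k - 1)) :
    ∃ (z' : Fin m → Fin n → ZMod p) (z0' : Fin n → ZMod p) (P' : Finset (Finset (Fin m))),
      Packed X S0 D N k g ρ m S z' z0' P' ∧
      (P.biUnion id).card + 1 ≤ (P'.biUnion id).card := by
  classical
  set C : Finset (Fin m) := P.biUnion id with hC
  set E : Finset (Fin m) := Cᶜ with hE
  have hEc : E.card = m - C.card := by rw [hE, Finset.card_compl, Fintype.card_fin]
  set B : Finset (Fin k → V) := Finset.univ.filter fun y => Function.Injective y ∧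
    ∃ s : Fin k → Fin m, ∀ J : Finset (Fin k), J.Nonempty →
      ¬ Rich X S0 D N J.card (∑ i ∈ J, z (y i) (s i)) with hB
  have hBc : B.card ≤ m ^ k * p ^ n * KR D k * N ^ k :=
    bad_card hS0 hS hN hS0N z (fun v i => (hP v).mem i) hdisj B
      fun y hy => (Finset.mem_filter.1 hy).2
  obtain ⟨W, hW, hWB⟩ := sample k Qs hk hQs B (fun y hy => (Finset.mem_filter.1 hy).2.1)
    ((Nat.mul_le_mul_left 2 hBc).trans hbad)
  have hWm : mixNum (m + 1) k Q n ≤ W.card := by
    have h1 : 2 * Qs * mixNum (m + 1) k Q n ≤ 2 * Qs * W.card := hV.trans hW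
    exact Nat.le_of_mul_le_mul_left h1 (by omega)
  -- mixing
  have hcO : Fintype.card (Option {x // x ∈ E}) = E.card + 1 := by
    rw [Fintype.card_option, Fintype.card_coe]
  set a : {v // v ∈ W} → Option {x // x ∈ E} → (Fin n → ZMod p) := fun v o =>
    match o with
    | some s => g • z v s
    | none => g • ∑ s ∈ C, z v s + ρ • z0 v with ha
  have hsplit : ∀ f : Fin m → Fin n → ZMod p,
      ∑ s : {x // x ∈ E}, f s + ∑ s ∈ C, f s = ∑ s, f s := by
    intro f
    rw [Finset.sum_coe_sort E f, hE]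
    exact Finset.sum_compl_add_sum C f
  have hsum0 : ∀ v, ∑ o, a v o = 0 := by
    intro v
    rw [Fintype.sum_option]
    have h1 := (hP v).sum
    rw [← hsplit (fun s => z v s), smul_add, Finset.smul_sum] at h1
    rw [← h1]
    simp only [ha]
    abel
  obtain ⟨ι, hι, hιc⟩ := mix (p := p) (n := n) (Q := Q) (k := k) (none : Option {x // x ∈ E}) a hsum0
    (by rw [hcO, Nat.add_sub_cancel, hEc]; exact hE2)
    (by rw [hcO, Nat.add_sub_cancel, hEc]; exact hEQ)
    (by
      rw [hcO, Fintype.card_coe]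
      refine le_trans (mixNum_mono ?_ k Q n) hWm
      rw [hEc]; omega)
  obtain ⟨s, hs⟩ := choose_inj ι k hιc
  set z' : Fin m → Fin n → ZMod p := fun i =>
    if h : i ∈ E then z (ι (some ⟨i, h⟩)) i else z (ι none) i with hz'
  have hz'E : ∀ x : {x // x ∈ E}, z' x = z (ι (some x)) x := by
    intro x
    simp only [hz', x.2, dif_pos]
  have hz'C : ∀ i ∈ C, z' i = z (ι none) i := by
    intro i hi
    have h1 : i ∉ E := by rw [hE]; simpa using hi
    simp only [hz', h1, dif_neg, not_false_iff]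
  -- the rich subsum
  set y : Fin k → V := fun i => (ι (some (s i)) : V) with hy
  have hyinj : Function.Injective y := fun i j hij => hs (Subtype.ext hij)
  have hyB : y ∉ B := by
    intro h1
    obtain ⟨i, hi⟩ := hWB y h1
    exact hi (ι (some (s i))).2
  have hJ0 : ∃ J0 : Finset (Fin k), J0.Nonempty ∧
      Rich X S0 D N J0.card (∑ i ∈ J0, z (y i) (s i : Fin m)) := by
    by_contra hcon
    push Not at hcon
    exact hyB (Finset.mem_filter.2 ⟨Finset.mem_univ _, hyinj, fun i => (s i : Fin m), hcon⟩)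
  obtain ⟨J0, hJ0n, hJ0r⟩ := hJ0
  have hsinj : Function.Injective fun i => (s i : Fin m) := by
    intro i j hij
    have h1 : s i = s j := Subtype.ext hij
    exact hs (by simp only [h1])
  set J : Finset (Fin m) := J0.image fun i => (s i : Fin m) with hJ
  have hJc : J.card = J0.card := Finset.card_image_of_injective _ hsinj
  have hJE : J ⊆ E := by
    intro i hi
    obtain ⟨j, -, rfl⟩ := Finset.mem_image.1 hi
    exact (s j).2
  have hJC : Disjoint J C := by
    rw [Finset.disjoint_left]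
    intro i hi hiC
    have := hJE hi
    rw [hE] at this
    exact (Finset.mem_compl.1 this) hiC
  have hsub : ∀ J' ∈ P, J' ⊆ C := by
    intro J' hJ'
    rw [hC]
    exact Finset.subset_biUnion_of_mem id hJ'
  have hJr : Rich X S0 D N J.card (∑ i ∈ J, z' i) := by
    rw [hJc, hJ, Finset.sum_image (fun i _ j _ hij => hsinj hij)]
    have h1 : ∑ i ∈ J0, z' (s i : Fin m) = ∑ i ∈ J0, z (y i) (s i : Fin m) :=
      Finset.sum_congr rfl fun i _ => hz'E (s i)
    rw [h1]
    exact hJ0r
  refine ⟨z', z0 (ι none), insert J P, ⟨?_, ?_, ?_, ?_, ?_, ?_, ?_⟩, ?_⟩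
  · intro i
    by_cases h : i ∈ E
    · have h1 := hz'E ⟨i, h⟩
      change z' i ∈ S
      change z' i = _ at h1
      rw [h1]
      exact (hP _).mem _
    · have h1 : z' i = z (ι none) i := by simp only [hz', h, dif_neg, not_false_iff]
      rw [h1]
      exact (hP _).mem _
  · exact (hP _).mem0
  · rw [Fintype.sum_option] at hι
    rw [← hsplit z', smul_add, Finset.smul_sum, Finset.sum_congr rfl fun x _ =>
      congrArg (fun t => g • t) (hz'E x), Finset.sum_congr rfl hz'C, ← hι]
    simp only [ha]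
    abel
  · intro J' hJ'
    rcases Finset.mem_insert.1 hJ' with h | h
    · rw [h, hJ]; exact hJ0n.image _
    · exact (hP (ι none)).ne J' h
  · intro J' hJ'
    rcases Finset.mem_insert.1 hJ' with h | h
    · rw [h, hJc]
      exact (Finset.card_le_univ J0).trans (by rw [Fintype.card_fin])
    · exact (hP (ι none)).card J' h
  · intro J1 hJ1 J2 hJ2 hne
    rcases Finset.mem_insert.1 hJ1 with h1 | h1 <;> rcases Finset.mem_insert.1 hJ2 with h2 | h2
    · exact absurd (h1.trans h2.symm) hne
    · rw [h1]; exact hJC.mono_right (hsub J2 h2)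
    · rw [h2]; exact (hJC.mono_right (hsub J1 h1)).symm
    · exact (hP (ι none)).disj J1 h1 J2 h2 hne
  · intro J' hJ'
    rcases Finset.mem_insert.1 hJ' with h | h
    · rw [h]; exact hJr
    · have h1 : ∑ i ∈ J', z' i = ∑ i ∈ J', z (ι none) i :=
        Finset.sum_congr rfl fun i hi => hz'C i (hsub J' h hi)
      rw [h1]
      exact (hP (ι none)).rich J' h
  · have h1 : (insert J P).biUnion id = J ∪ C := by
      rw [Finset.biUnion_insert]
      rfl
    rw [h1, Finset.card_union_of_disjoint hJC]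
    have h2 : 1 ≤ J.card := by
      rw [hJc]; exact hJ0n.card_pos
    omega

end Pool.Agent.EGZ20
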