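import Pool.Agent.EGZ20.Defs

/-!
# Resolving a packed solution into distinct elements
-/

set_option linter.unusedSectionVars false

namespace Pool.Agent.EGZ20

open Finset

variable {G : Type*} [AddCommGroup G] [DecidableEq G]

namespace ResolveAux

/-- additivity of flexible sums -/
lemma flex_add {X : Finset G} {D1 h h' : ℕ} {w w' : G} (h1 : Flex X (D1 + h') h w)
    (h2 : Flex X D1 h' w') : Flex X D1 (h + h') (w + w') := by
  intro U hU
  obtain ⟨Z', hZ'X, hZ'U, hZ'c, hZ's⟩ := h2 U hU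
  obtain ⟨Z, hZX, hZU, hZc, hZs⟩ := h1 (U ∪ Z') ((card_union_le _ _).trans (by omega))
  rw [disjoint_union_right] at hZU
  refine ⟨Z ∪ Z', union_subset hZX hZ'X, disjoint_union_left.2 ⟨hZU.1, hZ'U⟩, ?_, ?_⟩
  · rw [card_union_of_disjoint hZU.2, hZc, hZ'c]
  · rw [sum_union hZU.2, hZs, hZ's]

lemma flex_zero (X : Finset G) (D : ℕ) : Flex X D 0 (0 : G) := fun _ _ =>
  ⟨∅, empty_subset _, disjoint_empty_left _, card_empty, sum_empty⟩

/-- additivity over a finite set of indices -/
lemma flex_sum {X : Finset G} {ι : Type*} (I : Finset ι) (D1 B : ℕ) (h : ι → ℕ) (v : ι → G)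
    (hB : D1 + ∑ i ∈ I, h i ≤ B) (hf : ∀ i ∈ I, Flex X B (h i) (v i)) :
    Flex X D1 (∑ i ∈ I, h i) (∑ i ∈ I, v i) := by
  classical
  induction I using Finset.induction_on with
  | empty =>
    rw [sum_empty, sum_empty]
    exact flex_zero X D1
  | insert i I hi ih =>
    rw [sum_insert hi] at hB
    rw [sum_insert hi, sum_insert hi]
    exact flex_add ((hf i (mem_insert_self _ _)).mono (by omega))
      (ih (by omega) fun j hj => hf j (mem_insert_of_mem hj))

/-- a rich element is flexible -/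
lemma flex_of_rich {X S0 : Finset G} (hS0 : S0 ⊆ X) {D N h : ℕ} {w : G} (hD : 1 ≤ D)
    (hN : D < N) (hh : 1 ≤ h) (hw : Rich X S0 D N h w) : Flex X (D - 1) h w := by
  intro U hU
  obtain ⟨a, ha, haU⟩ : ∃ a ∈ helpers X S0 D h w, a ∉ U := by
    by_contra hc
    push Not at hc
    have h1 := card_le_card (fun a ha => hc a ha : helpers X S0 D h w ⊆ U)
    unfold Rich at hw
    omega
  rw [mem_helpers] at ha
  obtain ⟨Z, hZX, hZU, hZc, hZs⟩ := ha.2 (insert a U) ((card_insert_le _ _).trans (by omega))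
  rw [disjoint_insert_right] at hZU
  refine ⟨insert a Z, insert_subset (hS0 ha.1) hZX, disjoint_insert_left.2 ⟨haU, hZU.2⟩, ?_, ?_⟩
  · rw [card_insert_of_notMem hZU.1, hZc]
    omega
  · rw [sum_insert hZU.1, hZs]
    abel

/-- `g` copies of a flexible sum -/
lemma flex_nsmul {X : Finset G} {B h : ℕ} {w : G} (g D1 : ℕ) (hB : D1 + g * h ≤ B)
    (hw : Flex X B h w) : Flex X D1 (g * h) (g • w) := by
  have h1 := flex_sum (X := X) (range g) D1 B (fun _ => h) (fun _ => w)
    (by rw [sum_const, card_range, smul_eq_mul]; exact hB) (fun _ _ => hw)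
  rwa [sum_const, sum_const, card_range, smul_eq_mul] at h1

/-- adding a non-rigid term to `g` copies of a rich sum -/
lemma flex_rig {X S0 : Finset G} {D h g p : ℕ} {w x : G} (hh : 1 ≤ h) (hgh : g * h ≤ p)
    (hp2 : 2 ≤ p) (hD : 3 * p ≤ D) (hw : Flex X (D - 1) h w)
    (hr : ¬ Rig X D g x (helpers X S0 D h w)) : Flex X p (1 + g * h) (x + g • w) := by
  intro U hU
  unfold Rig at hr
  push Not at hr
  obtain ⟨q, hq, z', hz', Z, hZX, hZU, hZc, hZs⟩ := hr U (by omega)
  -- the flexible sums `w - z' i`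
  have h1 : Flex X (p + (q + 1)) (∑ _i : Fin q, (h - 1)) (∑ i : Fin q, (w - z' i)) := by
    refine flex_sum univ _ (D - 1) _ _ ?_ ?_
    · rw [sum_const, card_univ, Fintype.card_fin, smul_eq_mul]
      have h2 : q * (h - 1) + q ≤ g * h := by
        calc q * (h - 1) + q = q * (h - 1 + 1) := by ring
          _ = q * h := by rw [Nat.sub_add_cancel hh]
          _ ≤ g * h := Nat.mul_le_mul_right _ hq
      omega
    · intro i _
      exact ((mem_helpers.1 (hz' i)).2).mono (by omega)
  rw [sum_const, card_univ, Fintype.card_fin, smul_eq_mul] at h1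
  have hqg : (g - q) * h + q * h = g * h := by
    rw [← add_mul, Nat.sub_add_cancel hq]
  have hqh : q * (h - 1) + q = q * h := by
    calc q * (h - 1) + q = q * (h - 1 + 1) := by ring
      _ = q * h := by rw [Nat.sub_add_cancel hh]
  have h2 : Flex X (p + (q + 1) + q * (h - 1)) ((g - q) * h) ((g - q) • w) :=
    flex_nsmul (g - q) _ (by omega) hw
  obtain ⟨Y, hYX, hYU, hYc, hYs⟩ := flex_add h2 h1 (U ∪ Z)
    ((card_union_le _ _).trans (by omega))
  rw [disjoint_union_right] at hYU
  refine ⟨Z ∪ Y, union_subset hZX hYX, disjoint_union_left.2 ⟨hZU, hYU.1⟩, ?_, ?_⟩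
  · rw [card_union_of_disjoint hYU.2.symm, hZc, hYc]
    omega
  · rw [sum_union hYU.2.symm, hZs, hYs, sum_sub_distrib, sum_const, card_univ, Fintype.card_fin]
    have h3 : (g - q) • w + q • w = g • w := by rw [← add_nsmul, Nat.sub_add_cancel hq]
    rw [← h3]
    abel

end ResolveAux

open ResolveAux in
/-- A packed solution all of whose terms are not rigid gives `p` distinct elements of sum zero.

PROOF. (a) Additivity: `Flex X (D1 + h') h w → Flex X D1 h' w' → Flex X D1 (h + h') (w + w')` (first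
choose `Z'` for `w'` outside `U`, then `Z` for `w` outside `U ∪ Z'`). By induction, sums over a finset
of indices: if `Flex X (D1 + ∑ h i) (h i) (v i)` for all `i ∈ I` then `Flex X D1 (∑ h i) (∑ v i)`.
(b) If `w` is `h`-rich, `h ≥ 1`: `Flex X (D-1) h w` (for `|U| ≤ D-1 < N` choose a helper `a ∉ U`, then `Z`
for `w - a` outside `U ∪ {a}`, use `insert a Z`).
(c) So `Flex X p (g*h) (g • w)` for `w = ∑_{i∈J} z i`, `h = |J|`, `J ∈ P` (`g h ≤ g m ≤ p`).
(d) If `¬ Rig X D g x (helpers X S0 D h w)`: `Flex X p (1 + g*h) (x + g • w)`. For `|U| ≤ p` take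
`q ≤ g`, `z' : Fin q → G` with values helpers, `Z ⊆ X \ U`, `|Z| = q+1`, `∑ Z = x + ∑ z' i`; then
`Flex X D (h-1) (w - z' i)` for `i < q` and `Flex X (D-1) h w`, `g - q` times, chosen one after the
other outside `U ∪ Z ∪ ...`: total number of elements `q+1 + q(h-1) + (g-q)h = 1 + g h ≤ p + 1`, total
sum `x + g • w`. All avoided sets have at most `p + (p+1) ≤ D - 1` elements (`D ≥ 3p`, `p ≥ 2`).
(e) Let `E = (P.biUnion id)ᶜ`. The leftover copies: index type `(E × Fin g) ⊕ Fin ρ`
(elements `z s`, resp. `z0`), of cardinality `g (m - |P.biUnion id|) + ρ ≤ |P|`; choose an injection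
into `P`. For `J ∈ P` use (d) with `x` = the copy assigned to `J`, or (c) if there is none. By (a) with
`D1 = 0` the total is `Flex X 0 p 0`: number `∑_J g|J| + g|E| + ρ = g m + ρ = p`, sum
`g • ∑_{i ∈ ∪P} z i + g • ∑_{E} z i + ρ • z0 = 0`. Take `U = ∅`. -/
theorem resolve {X S0 S : Finset G} (hS0 : S0 ⊆ X) {D N k g ρ m p : ℕ} (hp : g * m + ρ = p) (hp2 : 2 ≤ p)
    (hD : 3 * p ≤ D) (hN : D < N) {z : Fin m → G} {z0 : G} {P : Finset (Finset (Fin m))}
    (hP : Packed X S0 D N k g ρ m S z z0 P)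
    (hleft : g * (m - (P.biUnion id).card) + ρ ≤ P.card)
    (hnr : ∀ x, (x = z0 ∨ ∃ i, x = z i) → ∀ J ∈ P,
      ¬ Rig X D g x (helpers X S0 D J.card (∑ i ∈ J, z i))) :
    ∃ Z : Finset G, Z ⊆ X ∧ Z.card = p ∧ ∑ x ∈ Z, x = 0 := by
  classical
  have hdisj : (P : Set (Finset (Fin m))).PairwiseDisjoint id :=
    fun J hJ J' hJ' hne => hP.disj J hJ J' hJ' hne
  have hcU : (P.biUnion id).card = ∑ J ∈ P, J.card := card_biUnion hdisj
  have hcm : (P.biUnion id).card ≤ m := by
    have h1 := card_le_univ (P.biUnion id)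
    rwa [Fintype.card_fin] at h1
  obtain ⟨E, hE⟩ : ∃ E, E = (P.biUnion id)ᶜ := ⟨_, rfl⟩
  have hcE : E.card = m - (P.biUnion id).card := by
    rw [hE, card_compl, Fintype.card_fin]
  -- the assignment of the uncovered terms
  have hcard : Fintype.card ((E × Fin g) ⊕ Fin ρ) ≤ Fintype.card P := by
    rw [Fintype.card_sum, Fintype.card_prod, Fintype.card_coe, Fintype.card_coe, Fintype.card_fin,
      Fintype.card_fin, hcE, mul_comm]
    exact hleft
  obtain ⟨φ⟩ := Function.Embedding.nonempty_of_card_le hcard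
  let xx : (E × Fin g) ⊕ Fin ρ → G := Sum.elim (fun s => z s.1) (fun _ => z0)
  have hxx : ∀ l, xx l = z0 ∨ ∃ i, xx l = z i := by
    rintro (s | s)
    · exact Or.inr ⟨s.1, rfl⟩
    · exact Or.inl rfl
  let fib : Finset (Fin m) → Finset ((E × Fin g) ⊕ Fin ρ) :=
    fun J => univ.filter fun l => (φ l : Finset (Fin m)) = J
  have hmaps : ∀ l ∈ (univ : Finset ((E × Fin g) ⊕ Fin ρ)), (φ l : Finset (Fin m)) ∈ P :=
    fun l _ => (φ l).2
  have hc1 : ∑ J ∈ P, (fib J).card = g * (m - (P.biUnion id).card) + ρ := by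
    have h1 := card_eq_sum_card_fiberwise hmaps
    rw [card_univ, Fintype.card_sum, Fintype.card_prod, Fintype.card_coe, Fintype.card_fin,
      Fintype.card_fin, hcE, mul_comm] at h1
    exact h1.symm
  have hs1 : ∑ J ∈ P, ∑ l ∈ fib J, xx l = g • ∑ i ∈ E, z i + ρ • z0 := by
    have h1 := sum_fiberwise_of_maps_to hmaps xx
    have h2 : ∑ l, xx l = g • ∑ i ∈ E, z i + ρ • z0 := by
      rw [Fintype.sum_sum_type, Fintype.sum_prod_type]
      congr 1
      · simp only [xx, Sum.elim_inl, sum_const, card_univ, Fintype.card_fin]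
        rw [← smul_sum, sum_coe_sort E (fun i => z i)]
      · simp only [xx, Sum.elim_inr, sum_const, card_univ, Fintype.card_fin]
    rw [← h2]
    exact h1
  -- each block is flexible
  have hblock : ∀ J ∈ P, Flex X p ((fib J).card + g * J.card)
      (∑ l ∈ fib J, xx l + g • ∑ i ∈ J, z i) := by
    intro J hJ
    have hJ1 : 1 ≤ J.card := card_pos.2 (hP.ne J hJ)
    have hJm : J.card ≤ m := by
      have h1 := card_le_univ J
      rwa [Fintype.card_fin] at h1
    have hgJ : g * J.card ≤ p := by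
      have h1 := Nat.mul_le_mul_left g hJm
      omega
    have hfl := flex_of_rich hS0 (by omega) hN hJ1 (hP.rich J hJ)
    rcases (fib J).eq_empty_or_nonempty with h0 | ⟨l, hl⟩
    · rw [h0, card_empty, sum_empty, zero_add, zero_add]
      exact flex_nsmul g p (by omega) hfl
    · have h1 : fib J = {l} := by
        ext l'
        rw [mem_singleton]
        constructor
        · intro hl'
          exact φ.injective (Subtype.ext ((mem_filter.1 hl').2.trans (mem_filter.1 hl).2.symm))
        · intro h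
          rw [h]
          exact hl
      rw [h1, card_singleton, sum_singleton]
      exact flex_rig hJ1 hgJ hp2 hD hfl (hnr _ (hxx l) J hJ)
  have hcsum : ∑ J ∈ P, ((fib J).card + g * J.card) = p := by
    rw [sum_add_distrib, hc1, ← mul_sum, ← hcU]
    have h1 : g * (m - (P.biUnion id).card) + g * (P.biUnion id).card = g * m := by
      rw [← mul_add, Nat.sub_add_cancel hcm]
    omega
  have hssum : ∑ J ∈ P, (∑ l ∈ fib J, xx l + g • ∑ i ∈ J, z i) = 0 := by
    rw [sum_add_distrib, hs1, ← smul_sum]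
    have h1 : ∑ J ∈ P, ∑ i ∈ J, z i = ∑ i ∈ P.biUnion id, z i := (sum_biUnion hdisj).symm
    have h2 : ∑ i ∈ E, z i + ∑ i ∈ P.biUnion id, z i = ∑ i, z i := by
      rw [hE]
      exact sum_compl_add_sum _ _
    rw [h1, add_right_comm, ← smul_add, h2]
    exact hP.sum
  have hfin := flex_sum (X := X) P 0 p _ _ (by rw [hcsum, zero_add]) hblock
  rw [hcsum, hssum] at hfin
  obtain ⟨Z, hZX, -, hZc, hZs⟩ := hfin ∅ (by rw [card_empty])
  exact ⟨Z, hZX, hZc, hZs⟩

end Pool.Agent.EGZ20
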