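import Pool.Agent.EGZ81.Slice
import Pool.Agent.EGZ20.LowCard

/-!
# The multicoloured sum-free theorem (slice rank)
-/

namespace Pool.Agent.EGZ20

open Finset

namespace SRAux

section

variable (p r : ℕ)

/-- Exponent patterns of one coordinate. -/
noncomputable def pat : Finset (Fin r → ℕ) :=
  insert 0 (piAntidiag univ (p - 1))

/-- Coefficients of one coordinate. -/
noncomputable def coef (k : Fin r → ℕ) : ZMod p :=
  open Classical in
  if k = 0 then 1 else -((Nat.multinomial univ k : ℕ) : ZMod p)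

lemma coord_expand (hp : 2 ≤ p) (z : Fin r → ZMod p) :
    1 - (∑ j, z j) ^ (p - 1) = ∑ k ∈ pat p r, coef p r k * ∏ j, z j ^ k j := by
  classical
  have h0 : (0 : Fin r → ℕ) ∉ piAntidiag (univ : Finset (Fin r)) (p - 1) := by
    rw [mem_piAntidiag]
    rintro ⟨h, _⟩
    simp at h
    omega
  rw [pat, sum_insert h0, sum_pow_eq_sum_piAntidiag]
  have e1 : coef p r 0 = 1 := by simp [coef]
  have e2 : ∀ k ∈ piAntidiag (univ : Finset (Fin r)) (p - 1),
      coef p r k * ∏ j, z j ^ k j =
        -(((Nat.multinomial univ k : ℕ) : ZMod p) * ∏ j, z j ^ k j) := by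
    intro k hk
    have : k ≠ 0 := by rintro rfl; exact h0 hk
    rw [coef, if_neg this, neg_mul]
  rw [sum_congr rfl e2, e1, sum_neg_distrib]
  simp [sub_eq_add_neg]

lemma pat_sum_le (k : Fin r → ℕ) (hk : k ∈ pat p r) : ∑ j, k j ≤ p - 1 := by
  classical
  rw [pat, mem_insert, mem_piAntidiag] at hk
  rcases hk with rfl | ⟨h, _⟩
  · simp
  · exact h.le

lemma indicator [Fact p.Prime] (s : ZMod p) : 1 - s ^ (p - 1) = if s = 0 then 1 else 0 := by
  by_cases h : s = 0
  · subst h
    have : p - 1 ≠ 0 := by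
      have := (Fact.out : p.Prime).two_le
      omega
    simp [this]
  · rw [if_neg h, ZMod.pow_card_sub_one_eq_one h, sub_self]

/-- Choice of a variable of low degree. -/
lemma exists_low {n Q : ℕ} (hr : 0 < r) (hQ : p - 1 ≤ Q * r) (E : Fin n → Fin r → ℕ)
    (hE : ∀ i, ∑ j, E i j ≤ p - 1) :
    ∃ j : Fin r, ∑ i, E i j ≤ Q * n := by
  classical
  by_contra hcon
  simp only [not_exists, not_le] at hcon
  have h1 : ∑ _j : Fin r, Q * n < ∑ j : Fin r, ∑ i, E i j := by
    apply sum_lt_sum_of_nonempty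
    · exact ⟨⟨0, hr⟩, mem_univ _⟩
    · intro j _; exact hcon j
  rw [sum_comm] at h1
  have h2 : ∑ i : Fin n, ∑ j, E i j ≤ ∑ _i : Fin n, (p - 1) := sum_le_sum (fun i _ => hE i)
  simp only [sum_const, card_univ, Fintype.card_fin, smul_eq_mul] at h1 h2
  have h3 : n * (p - 1) ≤ n * (Q * r) := Nat.mul_le_mul_left n hQ
  have h4 : n * (Q * r) = r * (Q * n) := by ring
  omega

end

/-- slots `Fin (m + 2)`, target `0` -/
theorem core {p : ℕ} [Fact p.Prime] {n Q m : ℕ} {V : Type*} [Fintype V]
    (b : V → Fin (m + 2) → (Fin n → ZMod p)) (hQ : p - 1 ≤ Q * (m + 2))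
    (hb : ∀ y : Fin (m + 2) → V, ∑ j, b (y j) j = 0 ↔ ∀ j, y j = y 0) :
    Fintype.card V ≤ (m + 2) * (low p n Q).card := by
  classical
  have hp := (Fact.out : p.Prime).two_le
  -- the index of the low variable
  let J : (Fin n → Fin (m + 2) → ℕ) → Fin (m + 2) := fun E =>
    if h : ∃ j : Fin (m + 2), ∑ i, E i j ≤ Q * n then h.choose else 0
  have hJ : ∀ E ∈ Fintype.piFinset (fun _ : Fin n => pat p (m + 2)),
      ∑ i, E i (J E) ≤ Q * n := by
    intro E hE
    rw [Fintype.mem_piFinset] at hE
    have h := exists_low p (m + 2) (by omega) hQ E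
      (fun i => pat_sum_le p (m + 2) _ (hE i))
    simp only [J, dif_pos h]
    exact h.choose_spec
  have hlt : ∀ E ∈ Fintype.piFinset (fun _ : Fin n => pat p (m + 2)), ∀ i j, E i j < p := by
    intro E hE i j
    rw [Fintype.mem_piFinset] at hE
    have h1 := pat_sum_le p (m + 2) _ (hE i)
    have h2 : E i j ≤ ∑ j, E i j := single_le_sum (fun _ _ => Nat.zero_le _) (mem_univ j)
    omega
  -- the functions
  let f : Fin (m + 2) → (low p n Q) → V → ZMod p := fun j α v => ∏ i, (b v j i) ^ ((α.1 i : ℕ))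
  let g : Fin (m + 2) → (low p n Q) → (Fin (m + 2) → V) → ZMod p := fun j α y =>
    ∑ E ∈ (Fintype.piFinset (fun _ : Fin n => pat p (m + 2))).filter
      (fun E => J E = j ∧ ∀ i, E i j = (α.1 i : ℕ)),
      (∏ i, coef p (m + 2) (E i)) * ∏ j' ∈ univ.erase j, ∏ i, (b (y j') j' i) ^ (E i j')
  have hg : ∀ j α y y', (∀ i, i ≠ j → y i = y' i) → g j α y = g j α y' := by
    intro j α y y' h
    apply sum_congr rfl
    intro E _
    congr 1
    apply prod_congr rfl
    intro j' hj'
    rw [h j' (ne_of_mem_erase hj')]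
  have hexp : ∀ y : Fin (m + 2) → V, (if ∑ j, b (y j) j = 0 then (1 : ZMod p) else 0) =
      ∑ j, ∑ α, f j α (y j) * g j α y := by
    intro y
    have h1 : (if ∑ j, b (y j) j = 0 then (1 : ZMod p) else 0) =
        ∏ i : Fin n, (1 - (∑ j, b (y j) j i) ^ (p - 1)) := by
      have e : ∀ i : Fin n, (1 - (∑ j, b (y j) j i) ^ (p - 1)) =
          if ∑ j, b (y j) j i = 0 then (1 : ZMod p) else 0 := fun i => indicator p _
      rw [prod_congr rfl (fun i _ => e i)]
      by_cases hs : ∑ j, b (y j) j = 0
      · rw [if_pos hs]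
        symm
        apply prod_eq_one
        intro i _
        have := congrFun hs i
        rw [Finset.sum_apply, Pi.zero_apply] at this
        rw [if_pos this]
      · rw [if_neg hs]
        symm
        obtain ⟨i, hi⟩ := Function.ne_iff.mp hs
        rw [Finset.sum_apply, Pi.zero_apply] at hi
        exact prod_eq_zero (mem_univ i) (if_neg hi)
    rw [h1, prod_congr rfl (fun i _ => coord_expand p (m + 2) hp (fun j => b (y j) j i)),
      prod_univ_sum]
    -- regroup
    have h2 : ∀ E ∈ Fintype.piFinset (fun _ : Fin n => pat p (m + 2)),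
        ∏ i, (coef p (m + 2) (E i) * ∏ j, b (y j) j i ^ E i j) =
        ∑ j, ∑ α : low p n Q, (if J E = j ∧ ∀ i, E i j = (α.1 i : ℕ) then
          f j α (y j) * ((∏ i, coef p (m + 2) (E i)) *
            ∏ j' ∈ univ.erase j, ∏ i, (b (y j') j' i) ^ (E i j')) else 0) := by
      intro E hE
      let α0 : low p n Q := ⟨fun i => ⟨E i (J E), hlt E hE i (J E)⟩, by
        rw [low, mem_filter]
        exact ⟨mem_univ _, hJ E hE⟩⟩
      rw [sum_eq_single (J E)]
      · rw [sum_eq_single α0]
        · rw [if_pos ⟨rfl, fun i => rfl⟩, prod_mul_distrib]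
          have e3 : ∏ i, ∏ j, b (y j) j i ^ E i j = ∏ j, ∏ i, b (y j) j i ^ E i j := prod_comm
          rw [e3, ← mul_prod_erase univ _ (mem_univ (J E))]
          simp only [f, α0]
          ring
        · intro α _ hα
          rw [if_neg]
          rintro ⟨_, h⟩
          apply hα
          apply Subtype.ext
          funext i
          apply Fin.ext
          exact (h i).symm
        · intro h; exact (h (mem_univ _)).elim
      · intro j _ hj
        apply sum_eq_zero
        intro α _
        rw [if_neg]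
        rintro ⟨h, _⟩
        exact hj h.symm
      · intro h; exact (h (mem_univ _)).elim
    rw [sum_congr rfl h2, sum_comm]
    apply sum_congr rfl
    intro j _
    rw [sum_comm]
    apply sum_congr rfl
    intro α _
    rw [← sum_filter, ← mul_sum]
  have hdiag : ∀ y : Fin (m + 2) → V, (if ∑ j, b (y j) j = 0 then (1 : ZMod p) else 0) =
      if ∀ i, y i = y 0 then 1 else 0 := by
    intro y
    by_cases hy : ∀ i, y i = y 0
    · rw [if_pos hy, if_pos ((hb y).2 hy)]
    · rw [if_neg hy, if_neg (fun h => hy ((hb y).1 h))]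
  have := EGZ81.slice_rank (F := ZMod p) (ι := V) (κ := low p n Q) m (fun _ => 1) f g hg
    (by
      intro y
      rw [← hexp y, hdiag y])
  simpa using this

end SRAux

/-- Multicoloured sum-free theorem. PROOF. Adapt `EGZ81.strong_card_le` in
`Pool/Agent/EGZ81/Strong.lean` (slots `Ω ≃ Fin (m+2)` instead of `Fin p`, vectors `a v s` depending on
the slot, target `t`): the tensor `F(ι) = ∏_i (1 - (∑_s a (ι s) s i - t i)^(p-1))` is the indicator of
`∑_s a (ι s) s = t`, which by `ha`, `hc` is the indicator of `ι` constant. Expand into monomials of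
degree `≤ p-1` in each coordinate `i` in the variables `a (ι s) s i` (constants `t i` allowed: e.g.
use `sum_pow_eq_sum_piAntidiag` over `Option`-many summands, one of them the constant `- t i`; or
first reduce to `t = 0` by subtracting `t` from the vectors of one slot); total degree
`≤ (p-1) n ≤ Q (card Ω) n`, so some slot has degree `≤ Q n`; apply `EGZ81.slice_rank` with
`κ = low p n Q`, `ι = V`, and `low_card`. -/
theorem sr {p : ℕ} [Fact p.Prime] {n Q : ℕ} {Ω V : Type*} [Fintype Ω] [Fintype V]
    (a : V → Ω → (Fin n → ZMod p)) (t : Fin n → ZMod p)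
    (hQ : p - 1 ≤ Q * Fintype.card Ω) (h2 : 2 ≤ Fintype.card Ω)
    (ha : ∀ v, ∑ s, a v s = t)
    (hc : ∀ ι : Ω → V, ∑ s, a (ι s) s = t → ∀ s s', ι s = ι s') :
    Fintype.card V ≤ Fintype.card Ω * (4 * (Q + 1)) ^ n := by
  classical
  obtain ⟨m, hm⟩ : ∃ m, Fintype.card Ω = m + 2 := ⟨Fintype.card Ω - 2, by omega⟩
  have e : Ω ≃ Fin (m + 2) := Fintype.equivFinOfCardEq hm
  -- subtract the target from the vectors of the slot `0`
  let b : V → Fin (m + 2) → (Fin n → ZMod p) := fun v j =>
    a v (e.symm j) - (if j = 0 then t else 0)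
  have hsum : ∀ y : Fin (m + 2) → V, ∑ j, b (y j) j = ∑ s, a (y (e s)) s - t := by
    intro y
    simp only [b, sum_sub_distrib]
    congr 1
    · rw [← e.sum_comp]
      exact sum_congr rfl fun s _ => by rw [e.symm_apply_apply]
    · simp
  have hb : ∀ y : Fin (m + 2) → V, ∑ j, b (y j) j = 0 ↔ ∀ j, y j = y 0 := by
    intro y
    rw [hsum, sub_eq_zero]
    constructor
    · intro h j
      have := hc (fun s => y (e s)) h (e.symm j) (e.symm 0)
      simpa using this
    · intro h
      rw [sum_congr rfl fun s _ => by rw [h (e s)]]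
      exact ha (y 0)
  rw [hm] at hQ ⊢
  exact (SRAux.core b hQ hb).trans (Nat.mul_le_mul_left _ (low_card p n Q))

end Pool.Agent.EGZ20
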