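import Pool.Agent.EGZ20.PackEx
import Pool.Agent.EGZ20.Resolve

/-!
# Rigid pairs in admissible sets
-/

namespace Pool.Agent.EGZ20

open Finset

theorem thmA {p : ℕ} [Fact p.Prime] {n : ℕ} {X S0 S : Finset (Fin n → ZMod p)}
    (hX : ∀ Z ⊆ X, Z.card = p → ∑ x ∈ Z, x ≠ 0)
    (hS0 : S0 ⊆ X) (hS : S ⊆ S0) {D N k g ρ m Q Qs L e0 : ℕ} (hp : g * m + ρ = p)
    (hD : 3 * p ≤ D) (hDN : D < N) (hk : 1 ≤ k) (hS0N : S0.card ≤ N ^ 2)
    (he2 : 2 * k ≤ e0 + 1) (heQ : (p - 1) * k ≤ Q * (e0 + 1))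
    (hleft : (g * e0 + ρ) * k + e0 ≤ m)
    (hQs : 1 ≤ Qs) (hL : 2 * Qs * mixNum (m + 1) k Q n ≤ L)
    (hbad : 2 * (m ^ k * p ^ n * KR D k * N ^ k) ≤ L * Qs ^ (k - 1))
    (hcard : 1 + m * (m * (2 ^ 2 ^ m * L)) ≤ S.card) :
    ∃ x ∈ S, ∃ T ⊆ S0, N ≤ T.card ∧ Rig X D g x T := by
  classical
  obtain ⟨z, z0, P, hP, hcov⟩ := packed_exists hS0 hS hp hk (by omega) hS0N he2 heQ hQs hL
    hbad hcard
  have hPk : (P.biUnion id).card ≤ P.card * k :=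
    card_biUnion_le_card_mul P id k (fun J hJ => hP.card J hJ)
  have hlt : g * (m - (P.biUnion id).card) + ρ ≤ P.card := by
    have h1 : m - (P.biUnion id).card ≤ e0 := by omega
    have h2 : g * (m - (P.biUnion id).card) + ρ ≤ g * e0 + ρ :=
      Nat.add_le_add_right (Nat.mul_le_mul_left g h1) ρ
    refine h2.trans ?_
    have h3 : (g * e0 + ρ) * k ≤ P.card * k := by omega
    exact Nat.le_of_mul_le_mul_right h3 hk
  by_contra hcon
  have hp2 : 2 ≤ p := (Fact.out : p.Prime).two_le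
  obtain ⟨Z, hZX, hZc, hZs⟩ := resolve hS0 hp hp2 hD hDN hP hlt (by
    intro x hx J hJ hrig
    apply hcon
    have hxS : x ∈ S := by
      rcases hx with rfl | ⟨i, rfl⟩
      · exact hP.mem0
      · exact hP.mem i
    exact ⟨x, hxS, _, helpers_subset _ _ _ _ _, hP.rich J hJ, hrig⟩)
  exact hX Z hZX hZc hZs

end Pool.Agent.EGZ20
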